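import Mathlib

/-! Algebraic identities in characteristic two. -/

namespace Pool.Agent.R478.BES.Alg

variable {F : Type*} [Field F] [CharP F 2]

theorem A1 (u v p r : F) (hp : p ≠ 0) (hr : r ≠ 0) (hpr : p + r ≠ 0)
    (h : p ^ 2 * (v ^ 2 + v) = r ^ 2 * (u ^ 2 + u)) :
    (r * u + p * v) * (r * u + p * v + p) / (r * (p + r)) = u := by grind

theorem A2 (u v p r : F) (hp : p ≠ 0) (hr : r ≠ 0) (hpr : p + r ≠ 0)
    (h : p ^ 2 * (v ^ 2 + v) = r ^ 2 * (u ^ 2 + u)) :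
    (r * u + p * v) * (r * u + p * v + r) / (p * (p + r)) = v := by grind

theorem A4 (m p r : F) (hr : r ≠ 0) (hpr : p + r ≠ 0) :
    (m * (m + p) / (r * (p + r))) ^ 2 + m * (m + p) / (r * (p + r)) =
          m * (m + p) * (m + r) * (m + p + r) / (r * (p + r)) ^ 2 := by
  have h := mul_ne_zero hr hpr
  have h2 := pow_ne_zero 2 h
  field_simp
  grind

theorem A4' (m p r : F) (hp : p ≠ 0) (hpr : p + r ≠ 0) :
    (m * (m + r) / (p * (p + r))) ^ 2 + m * (m + r) / (p * (p + r)) =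
          m * (m + p) * (m + r) * (m + p + r) / (p * (p + r)) ^ 2 := by
  have h := mul_ne_zero hp hpr
  have h2 := pow_ne_zero 2 h
  field_simp
  grind

theorem A3 (m p r : F) (hp : p ≠ 0) (hr : r ≠ 0) (hpr : p + r ≠ 0) :
    p ^ 2 * ((m * (m + r) / (p * (p + r))) ^ 2 + m * (m + r) / (p * (p + r))) =
          r ^ 2 * ((m * (m + p) / (r * (p + r))) ^ 2 + m * (m + p) / (r * (p + r))) := by
  rw [A4 m p r hr hpr, A4' m p r hp hpr]
  field_simp

theorem A5 (u v p r : F) (hp : p ≠ 0) (hr : r ≠ 0) (hpr : p + r ≠ 0)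
    (h : p ^ 2 * (v ^ 2 + v) = r ^ 2 * (u ^ 2 + u)) (hu : u ^ 2 + u ≠ 0) :
    r * u + p * v ≠ 0 ∧ r * u + p * v ≠ p ∧ r * u + p * v ≠ r ∧ r * u + p * v ≠ p + r := by
  have h1 := A1 u v p r hp hr hpr h
  have h2 := A2 u v p r hp hr hpr h
  refine ⟨?_, ?_, ?_, ?_⟩
  · intro h3; rw [h3] at h1; apply hu; rw [← h1]; simp
  · intro h3; rw [h3, CharTwo.add_self_eq_zero] at h1; apply hu; rw [← h1]; simp
  · intro h3; rw [h3, CharTwo.add_self_eq_zero] at h2; apply hu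
    have h4 : r ^ 2 * (u ^ 2 + u) = 0 := by rw [← h, ← h2]; simp
    exact (mul_eq_zero.1 h4).resolve_left (pow_ne_zero 2 hr)
  · intro h3; rw [h3] at h1; apply hu
    have h4 : p + r + p = r := by grind
    rw [h4, mul_comm, div_self (mul_ne_zero hr hpr)] at h1
    rw [← h1]; grind

theorem A6 (m p r : F) (hp : p ≠ 0) (hr : r ≠ 0) (hpr : p + r ≠ 0) :
    r * (m * (m + p) / (r * (p + r))) + p * (m * (m + r) / (p * (p + r))) = m := by
  field_simp
  grind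

theorem A7 (m p r u v : F) (hp : p ≠ 0) (hr : r ≠ 0) (hpr : p + r ≠ 0)
    (hu : u = m * (m + p) / (r * (p + r))) (hv : v = m * (m + r) / (p * (p + r))) :
    (u + v + 1) * (p * r) = (m + p) * (m + r) := by
  rw [hu, hv]; field_simp; grind

theorem A8 (m p r u : F) (hr : r ≠ 0) (hpr : p + r ≠ 0)
    (hu : u = m * (m + p) / (r * (p + r))) :
    (u ^ 2 + u) * (r * (p + r)) ^ 2 = m * (m + p) * (m + r) * (m + p + r) := by
  rw [hu, A4 m p r hr hpr]
  field_simp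

theorem A9a (a b c d η : F) (ha : a ≠ 0) (hb : b ≠ 0) (hc : c ≠ 0) (hd : d ≠ 0)
    (hpr : a * b + c * d ≠ 0) :
    (a * b + c * d) * (1 + η) * ((a * b + c * d) * (1 + η) + a * b) / (c * d * (a * b + c * d)) *
      ((a ^ 2)⁻¹ + (b ^ 2)⁻¹) +
    (a * b + c * d) * (1 + η) * ((a * b + c * d) * (1 + η) + c * d) / (a * b * (a * b + c * d)) *
      ((c ^ 2)⁻¹ + (d ^ 2)⁻¹) =
    (1 + η) * ((a ^ 2)⁻¹ + (b ^ 2)⁻¹ + (c ^ 2)⁻¹ + (d ^ 2)⁻¹ +
      (a * b + c * d) * (a * c + b * d) * (a * d + b * c) / (a * b * c * d) ^ 2 * η) := by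
  field_simp
  grind

theorem A9b (p r η : F) (hpr : p + r ≠ 0) (h0 : η ≠ 0) (h1 : η ≠ 1) :
    p * r * (p + r) ^ 2 / ((p + r) * (1 + η) * ((p + r) * (1 + η) + p + r)) =
      p * r / (η * (1 + η)) := by
  have h2 : 1 + η ≠ 0 := fun h => h1 (by grind)
  have h3 : (p + r) * (1 + η) + p + r = (p + r) * η := by grind
  rw [h3]
  field_simp

theorem A10 (p r X Y : F) (hp : p ≠ 0) (hr : r ≠ 0) (hpr : p + r ≠ 0) :
    p * (p + p) / (r * (p + r)) * X + p * (p + r) / (p * (p + r)) * Y +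
      p * r * (p + r) ^ 2 / (p * (p + p + r)) = Y + p ^ 2 + r ^ 2 := by
  rw [CharTwo.add_self_eq_zero, zero_add, mul_zero, zero_div, zero_mul, zero_add,
    div_self (mul_ne_zero hp hpr), one_mul, mul_div_assoc, mul_comm (p * r),
    div_mul_cancel₀ _ (mul_ne_zero hp hr)]
  grind

theorem A11 (p r X Y : F) (hp : p ≠ 0) (hr : r ≠ 0) (hpr : p + r ≠ 0) :
    r * (r + p) / (r * (p + r)) * X + r * (r + r) / (p * (p + r)) * Y +
      p * r * (p + r) ^ 2 / (r * (r + p + r)) = X + p ^ 2 + r ^ 2 := by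
  have h : r + p + r = p := by grind
  rw [CharTwo.add_self_eq_zero, mul_zero, zero_div, zero_mul, add_zero, h, add_comm r p,
    div_self (mul_ne_zero hr hpr), one_mul]
  field_simp
  grind

theorem B1 (a b c d : F) (ha : a ≠ 0) (hb : b ≠ 0) (hc : c ≠ 0) (hd : d ≠ 0)
    (hpr : a * b = c * d) : ((a ^ 2)⁻¹ + (b ^ 2)⁻¹ = (c ^ 2)⁻¹ + (d ^ 2)⁻¹) ↔
          ((a = c ∧ b = d) ∨ (a = d ∧ b = c)) := by
  constructor
  · intro h
    have h1 : ((a + b) / (a * b)) ^ 2 = (a ^ 2)⁻¹ + (b ^ 2)⁻¹ := by field_simp; grind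
    have h2 : ((c + d) / (c * d)) ^ 2 = (c ^ 2)⁻¹ + (d ^ 2)⁻¹ := by field_simp; grind
    have h3 : ((a + b) / (a * b)) ^ 2 = ((c + d) / (c * d)) ^ 2 := by rw [h1, h2, h]
    have h4 : (a + b) ^ 2 = (c + d) ^ 2 := by
      rw [← hpr, div_pow, div_pow] at h3
      have h5 : (a * b) ^ 2 ≠ 0 := pow_ne_zero 2 (mul_ne_zero ha hb)
      exact (div_left_inj' h5).1 h3
    have h6 : a + b = c + d := by
      have : (a + b + (c + d)) ^ 2 = 0 := by
        rw [CharTwo.add_sq, h4, CharTwo.add_self_eq_zero]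
      exact CharTwo.add_eq_zero.1 (pow_eq_zero_iff (two_ne_zero) |>.1 this)
    have h7 : (a + c) * (a + d) = 0 := by grind
    rcases mul_eq_zero.1 h7 with h8 | h8
    · left
      have h9 := CharTwo.add_eq_zero.1 h8
      refine ⟨h9, ?_⟩
      rw [h9] at h6
      exact add_left_cancel h6
    · right
      have h9 := CharTwo.add_eq_zero.1 h8
      refine ⟨h9, ?_⟩
      rw [h9, add_comm c d] at h6
      exact add_left_cancel h6
  · rintro (⟨rfl, rfl⟩ | ⟨rfl, rfl⟩)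
    · rfl
    · rw [add_comm]

end Pool.Agent.R478.BES.Alg
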