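import Mathlib
import Pool.Agent.R478.BES.Alg

/-! Character sum identities over a finite field of characteristic two. -/

namespace Pool.Agent.R478.BES

open Finset

variable {F : Type*} [Field F] [Fintype F] [DecidableEq F]

/-- the kernel `k(x,y,z)`. -/
noncomputable def kk (e : AddChar F ℂ) (x y z : F) : ℂ :=
  ∑ u : F, if u ^ 2 + u = x * y * z then e (u * (x⁻¹ + y⁻¹ + z⁻¹)) else 0

/-- the sum `B(x,t,z)`. -/
noncomputable def BB (e : AddChar F ℂ) (x t z : F) : ℂ :=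
  ∑ s : Fˣ, e (s * (x + t + z) + (s : F)⁻¹ + x * t * z * s ^ 2)

theorem sum_units (f : F → ℂ) :
    ∑ y : Fˣ, f y = ∑ y : F, if y = 0 then 0 else f y := by
  have h : ∑ y : F, (if y = 0 then 0 else f y) = ∑ y ∈ univ.filter (fun y : F => ¬ y = 0), f y := by
    rw [Finset.sum_filter]
    refine Finset.sum_congr rfl fun y _ => ?_
    by_cases hy : y = 0 <;> simp [hy]
  rw [h]
  symm
  refine Finset.sum_bij' (fun y hy => Units.mk0 y (by simpa using hy)) (fun y _ => (y : F))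
    ?_ ?_ ?_ ?_ ?_
  · intro y hy; simp
  · intro y _; simp
  · intro y hy; simp
  · intro y _; ext; simp
  · intro y hy; simp

omit [Fintype F] [DecidableEq F] in
theorem e_self [CharP F 2] (e : AddChar F ℂ) (x : F) : e x * e x = 1 := by
  rw [← AddChar.map_add_eq_mul, CharTwo.add_self_eq_zero, AddChar.map_zero_eq_one]

theorem sum_e (e : AddChar F ℂ) (hne : e ≠ 1) (a : F) :
    ∑ x : F, e (a * x) = if a = 0 then (Fintype.card F : ℂ) else 0 := by
  have := AddChar.sum_mulShift (ψ := e) a (AddChar.IsPrimitive.of_ne_one hne)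
  simp_rw [mul_comm a]
  rw [this]
  split_ifs <;> simp

theorem sum_units_e (e : AddChar F ℂ) (hne : e ≠ 1) (a : F) :
    ∑ x : Fˣ, e (a * x) = (if a = 0 then (Fintype.card F : ℂ) else 0) - 1 := by
  have h := sum_units (fun y : F => e (a * y))
  rw [h, ← sum_e e hne a, eq_sub_iff_add_eq]
  have h1 : (1 : ℂ) = ∑ y : F, if y = 0 then 1 else 0 := by simp
  rw [h1, ← Finset.sum_add_distrib]
  refine Finset.sum_congr rfl fun y _ => ?_
  split_ifs with hy
  · simp [hy]
  · simp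

theorem kk_swap12 (e : AddChar F ℂ) (x y z : F) : kk e x y z = kk e y x z := by
  unfold kk
  refine Finset.sum_congr rfl fun u _ => ?_
  rw [mul_comm x y, add_comm x⁻¹ y⁻¹]

theorem kk_swap23 (e : AddChar F ℂ) (x y z : F) : kk e x y z = kk e x z y := by
  unfold kk
  refine Finset.sum_congr rfl fun u _ => ?_
  rw [mul_assoc, mul_comm y z, ← mul_assoc, add_assoc, add_comm y⁻¹ z⁻¹, ← add_assoc]

theorem kk_support [CharP F 2] (e : AddChar F ℂ) (x y z : F) :
    kk e x y z * e (x⁻¹ + y⁻¹ + z⁻¹) = kk e x y z := by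
  unfold kk
  rw [Finset.sum_mul]
  refine Fintype.sum_equiv (Equiv.addRight (1 : F)) _ _ fun u => ?_
  simp only [Equiv.coe_addRight]
  have h1 : ((u + 1) ^ 2 + (u + 1) = x * y * z) ↔ (u ^ 2 + u = x * y * z) := by
    have : (u + 1) ^ 2 + (u + 1) = u ^ 2 + u := by grind
    rw [this]
  simp only [h1]
  split_ifs
  · rw [← AddChar.map_add_eq_mul]; congr 1; ring
  · simp

/-- `kk e x y z * e y⁻¹ = kk e x y z * e (x⁻¹ + z⁻¹)`. -/
theorem kk_support' [CharP F 2] (e : AddChar F ℂ) (x y z : F) :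
    kk e x y z * e y⁻¹ = kk e x y z * e (x⁻¹ + z⁻¹) := by
  conv_lhs => rw [← kk_support]
  rw [mul_assoc, ← AddChar.map_add_eq_mul]
  congr 2
  grind

theorem BB_swap12 (e : AddChar F ℂ) (x t z : F) : BB e x t z = BB e t x z := by
  unfold BB
  refine Finset.sum_congr rfl fun s _ => ?_
  congr 1; ring

theorem BB_swap23 (e : AddChar F ℂ) (x t z : F) : BB e x t z = BB e x z t := by
  unfold BB
  refine Finset.sum_congr rfl fun s _ => ?_
  congr 1; ring

/-- the fibre lemma. -/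
theorem fiber (x z : F) (hx : x ≠ 0) (hz : z ≠ 0) (G : F → F → ℂ) :
    ∑ y : Fˣ, ∑ u : F, (if u ^ 2 + u = x * y * z then G y u else 0) =
      ∑ u : F, if u ^ 2 + u = 0 then 0 else G ((u ^ 2 + u) / (x * z)) u := by
  rw [Finset.sum_comm]
  refine Finset.sum_congr rfl fun u _ => ?_
  rw [sum_units (fun y : F => if u ^ 2 + u = x * y * z then G y u else 0)]
  rw [Finset.sum_eq_single ((u ^ 2 + u) / (x * z))]
  · by_cases h : u ^ 2 + u = 0
    · simp [h]
    · have h1 : (u ^ 2 + u) / (x * z) ≠ 0 := by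
        have := mul_ne_zero hx hz
        exact div_ne_zero h this
      have h2 : u ^ 2 + u = x * ((u ^ 2 + u) / (x * z)) * z := by field_simp
      rw [if_neg h1, if_pos h2, if_neg h]
  · intro y _ hy
    split_ifs with h0 h1
    · rfl
    · exfalso; apply hy
      rw [h1]; field_simp
    · rfl
  · simp

theorem L2 [CharP F 2] (e : AddChar F ℂ) (x z t : F) (hx : x ≠ 0) (hz : z ≠ 0) :
    ∑ y : Fˣ, kk e x y z * e ((y : F)⁻¹ + y * t) = BB e x t z - e (x⁻¹ + z⁻¹ + x * z) := by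
  have h1 : ∀ y : Fˣ, kk e x y z * e ((y : F)⁻¹ + y * t) =
      ∑ u : F, (if u ^ 2 + u = x * y * z then
        (fun (y u : F) => e (u * (x⁻¹ + y⁻¹ + z⁻¹) + (y⁻¹ + y * t))) y u else 0) := by
    intro y
    unfold kk
    rw [Finset.sum_mul]
    refine Finset.sum_congr rfl fun u _ => ?_
    split_ifs
    · simp only []
      rw [← AddChar.map_add_eq_mul]
    · simp
  rw [Finset.sum_congr rfl fun y _ => h1 y,
    fiber x z hx hz (fun (y u : F) => e (u * (x⁻¹ + y⁻¹ + z⁻¹) + (y⁻¹ + y * t)))]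
  unfold BB
  rw [sum_units (fun s : F => e (s * (x + t + z) + (s : F)⁻¹ + x * t * z * s ^ 2)),
    eq_sub_iff_add_eq]
  have hxz := mul_ne_zero hx hz
  -- reindex `u = x z s`
  have h2 : ∑ u : F, (if u ^ 2 + u = 0 then (0 : ℂ) else
      e (u * (x⁻¹ + ((u ^ 2 + u) / (x * z))⁻¹ + z⁻¹) +
        (((u ^ 2 + u) / (x * z))⁻¹ + (u ^ 2 + u) / (x * z) * t))) =
      ∑ s : F, if s = 0 ∨ s = (x * z)⁻¹ then 0 else
        e (s * (x + t + z) + (s : F)⁻¹ + x * t * z * s ^ 2) := by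
    symm
    refine Fintype.sum_equiv (Equiv.mulLeft₀ (x * z) hxz) _ _ fun s => ?_
    simp only [Equiv.mulLeft₀_apply]
    by_cases h0 : s = 0
    · simp [h0]
    · by_cases h1 : s = (x * z)⁻¹
      · have : (x * z * s) ^ 2 + x * z * s = 0 := by
          rw [h1]; grind
        rw [if_pos (Or.inr h1), if_pos this]
      · have h2 : (x * z * s) ^ 2 + x * z * s ≠ 0 := by
          intro h
          have : x * z * s * (x * z * s + 1) = 0 := by rw [← h]; ring
          rcases mul_eq_zero.1 this with h' | h'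
          · rcases mul_eq_zero.1 h' with h'' | h''
            · exact hxz h''
            · exact h0 h''
          · apply h1; grind
        rw [if_neg (by tauto), if_neg h2]
        congr 1
        grind
  rw [h2]
  have h3 : e (x⁻¹ + z⁻¹ + x * z) = ∑ s : F, if s = (x * z)⁻¹ then
      e (s * (x + t + z) + (s : F)⁻¹ + x * t * z * s ^ 2) else 0 := by
    rw [Finset.sum_ite_eq' Finset.univ]
    simp only [mem_univ, if_true]
    congr 1
    grind
  rw [h3, ← Finset.sum_add_distrib]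
  refine Finset.sum_congr rfl fun s _ => ?_
  by_cases h0 : s = 0
  · have : (0 : F) ≠ (x * z)⁻¹ := (inv_ne_zero hxz).symm
    subst h0
    rw [if_pos (Or.inl rfl), if_neg this, if_pos rfl, add_zero]
  · by_cases h1 : s = (x * z)⁻¹
    · rw [if_pos (Or.inr h1), if_pos h1, if_neg h0, zero_add]
    · rw [if_neg (by tauto), if_neg h1, if_neg h0, add_zero]

/-- the symmetric target sum. -/
noncomputable def Tgt (e : AddChar F ℂ) (a b c d : F) : ℂ :=
  ∑ η : F, if η = 0 ∨ η = 1 then 0 else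
    e ((1 + η) * ((a ^ 2)⁻¹ + (b ^ 2)⁻¹ + (c ^ 2)⁻¹ + (d ^ 2)⁻¹ +
      (a * b + c * d) * (a * c + b * d) * (a * d + b * c) / (a * b * c * d) ^ 2 * η) +
      a * b * c * d / (η * (1 + η)))

theorem Tgt_swap23 (e : AddChar F ℂ) (a b c d : F) : Tgt e a b c d = Tgt e a c b d := by
  unfold Tgt
  refine Finset.sum_congr rfl fun η _ => ?_
  split_ifs
  · rfl
  · congr 1; ring

/-- expansion of the product of two kernels as a double sum. -/
theorem expand2 [CharP F 2] (e : AddChar F ℂ) (x z z' t : F) (hx : x ≠ 0) (hz : z ≠ 0) :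
    ∑ y : Fˣ, kk e x y z * e (y : F)⁻¹ * kk e y t z' =
      ∑ w : F × F, if w.1 ^ 2 + w.1 ≠ 0 ∧ x * z * (w.2 ^ 2 + w.2) = z' * t * (w.1 ^ 2 + w.1) then
        e (w.1 * (x⁻¹ + z⁻¹) + w.2 * (z'⁻¹ + t⁻¹) + (w.1 + w.2 + 1) * (x * z / (w.1 ^ 2 + w.1)))
        else 0 := by
  have hxz := mul_ne_zero hx hz
  have h1 : ∀ y : Fˣ, kk e x y z * e (y : F)⁻¹ * kk e y t z' =
      ∑ u : F, (if u ^ 2 + u = x * y * z then
        (fun (y u : F) => e (u * (x⁻¹ + y⁻¹ + z⁻¹)) * e y⁻¹ * kk e y t z') y u else 0) := by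
    intro y
    conv_lhs => unfold kk
    rw [Finset.sum_mul, Finset.sum_mul]
    refine Finset.sum_congr rfl fun u _ => ?_
    split_ifs
    · rfl
    · simp
  rw [Finset.sum_congr rfl fun y _ => h1 y,
    fiber x z hx hz (fun (y u : F) => e (u * (x⁻¹ + y⁻¹ + z⁻¹)) * e y⁻¹ * kk e y t z'),
    Fintype.sum_prod_type]
  refine Finset.sum_congr rfl fun u _ => ?_
  by_cases hu : u ^ 2 + u = 0
  · rw [if_pos hu]
    symm
    apply Finset.sum_eq_zero
    intro v _
    rw [if_neg]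
    rintro ⟨h, _⟩
    exact h hu
  · rw [if_neg hu]
    unfold kk
    rw [Finset.mul_sum]
    refine Finset.sum_congr rfl fun v _ => ?_
    have h2 : (v ^ 2 + v = (u ^ 2 + u) / (x * z) * t * z') ↔
        (u ^ 2 + u ≠ 0 ∧ x * z * (v ^ 2 + v) = z' * t * (u ^ 2 + u)) := by
      constructor
      · intro h
        refine ⟨hu, ?_⟩
        rw [h]; field_simp
      · rintro ⟨_, h⟩
        field_simp
        linear_combination h
    simp only [h2]
    split_ifs
    · rw [← AddChar.map_add_eq_mul, ← AddChar.map_add_eq_mul]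
      congr 1
      rw [inv_div]
      ring
    · simp

theorem L3a [CharP F 2] (e : AddChar F ℂ) (a b c d : F) (ha : a ≠ 0) (hb : b ≠ 0) (hc : c ≠ 0)
    (hd : d ≠ 0) (hpr : a * b + c * d ≠ 0) :
    ∑ y : Fˣ, kk e (a ^ 2) y (b ^ 2) * e (y : F)⁻¹ * kk e y (d ^ 2) (c ^ 2)
      + e ((a ^ 2)⁻¹ + (b ^ 2)⁻¹ + a ^ 2 * b ^ 2 + c ^ 2 * d ^ 2)
      + e ((c ^ 2)⁻¹ + (d ^ 2)⁻¹ + a ^ 2 * b ^ 2 + c ^ 2 * d ^ 2) = Tgt e a b c d := by
  rw [expand2 e _ _ _ _ (pow_ne_zero 2 ha) (pow_ne_zero 2 hb)]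
  obtain ⟨p, hp⟩ : ∃ p, p = a * b := ⟨_, rfl⟩
  obtain ⟨r, hr⟩ : ∃ r, r = c * d := ⟨_, rfl⟩
  have hp0 : p ≠ 0 := by rw [hp]; exact mul_ne_zero ha hb
  have hr0 : r ≠ 0 := by rw [hr]; exact mul_ne_zero hc hd
  have hpr0 : p + r ≠ 0 := by rw [hp, hr]; exact hpr
  have hpner : p ≠ r := by
    intro h; apply hpr0; rw [h, CharTwo.add_self_eq_zero]
  obtain ⟨X, hX⟩ : ∃ X, X = (a ^ 2)⁻¹ + (b ^ 2)⁻¹ := ⟨_, rfl⟩
  obtain ⟨Y, hY⟩ : ∃ Y, Y = (c ^ 2)⁻¹ + (d ^ 2)⁻¹ := ⟨_, rfl⟩
  have hP : a ^ 2 * b ^ 2 = p ^ 2 := by rw [hp]; ring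
  have hR : c ^ 2 * d ^ 2 = r ^ 2 := by rw [hr]; ring
  -- the double sum as a sum over `m`
  have h1 : (∑ w : F × F, if w.1 ^ 2 + w.1 ≠ 0 ∧
        a ^ 2 * b ^ 2 * (w.2 ^ 2 + w.2) = c ^ 2 * d ^ 2 * (w.1 ^ 2 + w.1) then
        e (w.1 * ((a ^ 2)⁻¹ + (b ^ 2)⁻¹) + w.2 * ((c ^ 2)⁻¹ + (d ^ 2)⁻¹) +
          (w.1 + w.2 + 1) * (a ^ 2 * b ^ 2 / (w.1 ^ 2 + w.1))) else 0) =
      ∑ m : F, if m ≠ 0 ∧ m ≠ p ∧ m ≠ r ∧ m ≠ p + r then
        e (m * (m + p) / (r * (p + r)) * X + m * (m + r) / (p * (p + r)) * Y +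
          p * r * (p + r) ^ 2 / (m * (m + p + r))) else 0 := by
    rw [← Finset.sum_filter, ← Finset.sum_filter]
    refine Finset.sum_nbij' (fun w => r * w.1 + p * w.2)
      (fun m => (m * (m + p) / (r * (p + r)), m * (m + r) / (p * (p + r)))) ?_ ?_ ?_ ?_ ?_
    · rintro ⟨u, v⟩ h
      simp only [mem_filter, mem_univ, true_and] at h ⊢
      obtain ⟨hu, h⟩ := h
      rw [hP, hR] at h
      exact Alg.A5 u v p r hp0 hr0 hpr0 h hu
    · rintro m h
      simp only [mem_filter, mem_univ, true_and] at h ⊢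
      obtain ⟨h0, h1, h2, h3⟩ := h
      constructor
      · rw [Alg.A4 m p r hr0 hpr0]
        have h5 : m + p ≠ 0 := fun h => h1 (CharTwo.add_eq_zero.1 h)
        have h6 : m + r ≠ 0 := fun h => h2 (CharTwo.add_eq_zero.1 h)
        have h7 : m + p + r ≠ 0 := fun h => h3 (by
          rw [add_assoc] at h
          exact CharTwo.add_eq_zero.1 h)
        have h8 : r * (p + r) ≠ 0 := mul_ne_zero hr0 hpr0
        exact div_ne_zero (mul_ne_zero (mul_ne_zero (mul_ne_zero h0 h5) h6) h7) (pow_ne_zero 2 h8)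
      · rw [hP, hR]
        exact Alg.A3 m p r hp0 hr0 hpr0
    · rintro ⟨u, v⟩ h
      simp only [mem_filter, mem_univ, true_and] at h ⊢
      obtain ⟨hu, h⟩ := h
      rw [hP, hR] at h
      exact Prod.ext (Alg.A1 u v p r hp0 hr0 hpr0 h) (Alg.A2 u v p r hp0 hr0 hpr0 h)
    · rintro m h
      exact Alg.A6 m p r hp0 hr0 hpr0
    · rintro ⟨u, v⟩ h
      simp only [mem_filter, mem_univ, true_and] at h ⊢
      obtain ⟨hu, h⟩ := h
      rw [hP, hR] at h
      have e1 := Alg.A1 u v p r hp0 hr0 hpr0 h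
      have e2 := Alg.A2 u v p r hp0 hr0 hpr0 h
      have h5 := Alg.A5 u v p r hp0 hr0 hpr0 h hu
      rw [← hX, ← hY, e1, e2, hP]
      congr 2
      obtain ⟨m, hm⟩ : ∃ m, m = r * u + p * v := ⟨_, rfl⟩
      rw [← hm] at e1 e2 h5 ⊢
      have hm0 : m ≠ 0 := h5.1
      have hm1 : m + p + r ≠ 0 := fun h => h5.2.2.2 (by
          rw [add_assoc] at h
          exact CharTwo.add_eq_zero.1 h)
      have e4 := Alg.A7 m p r u v hp0 hr0 hpr0 e1.symm e2.symm
      have e5 := Alg.A8 m p r u hr0 hpr0 e1.symm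
      rw [mul_div_assoc', div_eq_div_iff hu (mul_ne_zero hm0 hm1)]
      have hk : (r * (p + r)) ^ 2 * (p * r) ≠ 0 :=
        mul_ne_zero (pow_ne_zero 2 (mul_ne_zero hr0 hpr0)) (mul_ne_zero hp0 hr0)
      apply mul_left_cancel₀ hk
      linear_combination (p ^ 2 * m * (m + p + r) * (r * (p + r)) ^ 2) * e4 -
        (p * r * (p + r) ^ 2 * (p * r)) * e5
  obtain ⟨E, hE⟩ : ∃ E : F → F, E = fun m => m * (m + p) / (r * (p + r)) * X +
      m * (m + r) / (p * (p + r)) * Y + p * r * (p + r) ^ 2 / (m * (m + p + r)) := ⟨_, rfl⟩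
  have h2 : e ((c ^ 2)⁻¹ + (d ^ 2)⁻¹ + a ^ 2 * b ^ 2 + c ^ 2 * d ^ 2) = e (E p) := by
    rw [hE, ← hY, hP, hR]
    congr 1
    simp only []
    exact (Alg.A10 p r X Y hp0 hr0 hpr0).symm
  have h3 : e ((a ^ 2)⁻¹ + (b ^ 2)⁻¹ + a ^ 2 * b ^ 2 + c ^ 2 * d ^ 2) = e (E r) := by
    rw [hE, ← hX, hP, hR]
    congr 1
    simp only []
    exact (Alg.A11 p r X Y hp0 hr0 hpr0).symm
  have h4 : (∑ m : F, if m ≠ 0 ∧ m ≠ p ∧ m ≠ r ∧ m ≠ p + r then e (E m) else 0) + e (E r) +
      e (E p) = ∑ m : F, if m = 0 ∨ m = p + r then 0 else e (E m) := by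
    have q1 : e (E r) = ∑ m : F, if m = r then e (E m) else 0 := by simp
    have q2 : e (E p) = ∑ m : F, if m = p then e (E m) else 0 := by simp
    rw [q1, q2, ← Finset.sum_add_distrib, ← Finset.sum_add_distrib]
    refine Finset.sum_congr rfl fun m _ => ?_
    have hpr1 : p ≠ p + r := by
      intro h; apply hr0; simpa using h
    have hpr2 : r ≠ p + r := by
      intro h; apply hp0; simpa using h
    by_cases c0 : m = 0
    · subst c0
      simp [hp0.symm, hr0.symm]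
    · by_cases c1 : m = p
      · subst c1
        simp [c0, hpner, hpr1]
      · by_cases c2 : m = r
        · subst c2
          simp [c0, c1, hpr2]
        · by_cases c3 : m = p + r
          · simp [c3, hpr1.symm, hpr2.symm]
          · simp [c0, c1, c2, c3]
  rw [h1, h2, h3]
  have h5 : (∑ m : F, if m ≠ 0 ∧ m ≠ p ∧ m ≠ r ∧ m ≠ p + r then
        e (m * (m + p) / (r * (p + r)) * X + m * (m + r) / (p * (p + r)) * Y +
          p * r * (p + r) ^ 2 / (m * (m + p + r))) else 0) =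
      (∑ m : F, if m ≠ 0 ∧ m ≠ p ∧ m ≠ r ∧ m ≠ p + r then e (E m) else 0) := by
    rw [hE]
  rw [h5, h4]
  unfold Tgt
  symm
  refine Fintype.sum_equiv ((Equiv.addLeft (1 : F)).trans (Equiv.mulLeft₀ (p + r) hpr0)) _ _
    fun η => ?_
  simp only [Equiv.trans_apply, Equiv.coe_addLeft, Equiv.mulLeft₀_apply]
  by_cases c0 : η = 0
  · simp [c0]
  · by_cases c1 : η = 1
    · have : (1 : F) + 1 = 0 := CharTwo.add_self_eq_zero 1
      simp [c1, this]
    · have c2 : (p + r) * (1 + η) ≠ 0 := by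
        apply mul_ne_zero hpr0
        intro h; apply c1; exact (CharTwo.add_eq_zero.1 h).symm
      have c3 : (p + r) * (1 + η) ≠ p + r := by
        intro h
        apply c0
        have : (p + r) * η = 0 := by linear_combination h
        exact (mul_eq_zero.1 this).resolve_left hpr0
      rw [if_neg (by tauto), if_neg (by tauto)]
      congr 1
      rw [hE]
      simp only []
      rw [Alg.A9b p r η hpr0 c0 c1]
      have := Alg.A9a a b c d η ha hb hc hd hpr
      rw [← hp, ← hr, ← hX, ← hY] at this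
      rw [this, hX, hp, hr]
      ring

theorem L3b [CharP F 2] (e : AddChar F ℂ) (hne : e ≠ 1) (a b c d : F) (ha : a ≠ 0) (hb : b ≠ 0)
    (hpr : a * b = c * d) :
    ∑ y : Fˣ, kk e (a ^ 2) y (b ^ 2) * e (y : F)⁻¹ * kk e y (d ^ 2) (c ^ 2)
      + e ((a ^ 2)⁻¹ + (b ^ 2)⁻¹ + a ^ 2 * b ^ 2 + c ^ 2 * d ^ 2)
      + e ((c ^ 2)⁻¹ + (d ^ 2)⁻¹ + a ^ 2 * b ^ 2 + c ^ 2 * d ^ 2) = Tgt e a b c d +
        if (a ^ 2)⁻¹ + (b ^ 2)⁻¹ = (c ^ 2)⁻¹ + (d ^ 2)⁻¹ then
          (Fintype.card F : ℂ) * e ((c ^ 2)⁻¹ + (d ^ 2)⁻¹) else 0 := by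
  rw [expand2 e _ _ _ _ (pow_ne_zero 2 ha) (pow_ne_zero 2 hb)]
  obtain ⟨p, hp⟩ : ∃ p, p = a * b := ⟨_, rfl⟩
  have hp0 : p ≠ 0 := by rw [hp]; exact mul_ne_zero ha hb
  obtain ⟨X, hX⟩ : ∃ X, X = (a ^ 2)⁻¹ + (b ^ 2)⁻¹ := ⟨_, rfl⟩
  obtain ⟨Y, hY⟩ : ∃ Y, Y = (c ^ 2)⁻¹ + (d ^ 2)⁻¹ := ⟨_, rfl⟩
  have hP : a ^ 2 * b ^ 2 = p ^ 2 := by rw [hp]; ring
  have hR : c ^ 2 * d ^ 2 = p ^ 2 := by rw [hp, hpr]; ring
  rw [← hX, ← hY, hP, hR]
  have hb1 : e (X + p ^ 2 + p ^ 2) = e X := by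
    rw [add_assoc, CharTwo.add_self_eq_zero, add_zero]
  have hb2 : e (Y + p ^ 2 + p ^ 2) = e Y := by
    rw [add_assoc, CharTwo.add_self_eq_zero, add_zero]
  rw [hb1, hb2, Fintype.sum_prod_type]
  have h11 : (1 : F) + 1 = 0 := CharTwo.add_self_eq_zero 1
  -- the inner sum
  have hin : ∀ u : F, (∑ v : F, if (u, v).1 ^ 2 + (u, v).1 ≠ 0 ∧
        p ^ 2 * ((u, v).2 ^ 2 + (u, v).2) = p ^ 2 * ((u, v).1 ^ 2 + (u, v).1) then
        e ((u, v).1 * X + (u, v).2 * Y + ((u, v).1 + (u, v).2 + 1) *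
          (p ^ 2 / ((u, v).1 ^ 2 + (u, v).1))) else 0) =
      (if u = 0 ∨ u = 1 then 0 else e (u * (X + Y) + p ^ 2 / (u ^ 2 + u))) +
      (if u = 0 ∨ u = 1 then 0 else e (u * (X + Y)) * e Y) := by
    intro u
    simp only []
    by_cases hu : u = 0 ∨ u = 1
    · have : u ^ 2 + u = 0 := by
        rcases hu with h | h <;> simp [h, h11]
      simp [this, hu]
    · have hu2 : u ^ 2 + u ≠ 0 := by
        intro h
        have : u * (u + 1) = 0 := by rw [← h]; ring
        rcases mul_eq_zero.1 this with h | h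
        · exact hu (Or.inl h)
        · exact hu (Or.inr (CharTwo.add_eq_zero.1 h))
      rw [if_neg hu, if_neg hu]
      have hcond : ∀ v : F, (u ^ 2 + u ≠ 0 ∧ p ^ 2 * (v ^ 2 + v) = p ^ 2 * (u ^ 2 + u)) ↔
          (v = u ∨ v = u + 1) := by
        intro v
        constructor
        · rintro ⟨_, h⟩
          have h2 := mul_left_cancel₀ (pow_ne_zero 2 hp0) h
          have h3 : (v + u) * (v + u + 1) = 0 := by grind
          rcases mul_eq_zero.1 h3 with h | h
          · left; exact CharTwo.add_eq_zero.1 h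
          · right; rw [add_assoc] at h; exact CharTwo.add_eq_zero.1 h
        · rintro (h | h)
          · exact ⟨hu2, by rw [h]⟩
          · refine ⟨hu2, ?_⟩
            rw [h]; grind
      simp only [hcond]
      have hne1 : u ≠ u + 1 := by
        intro h; simp at h
      have : ∀ v : F, (if v = u ∨ v = u + 1 then
          e (u * X + v * Y + (u + v + 1) * (p ^ 2 / (u ^ 2 + u))) else 0) =
          (if v = u then e (u * X + v * Y + (u + v + 1) * (p ^ 2 / (u ^ 2 + u))) else 0) +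
          (if v = u + 1 then e (u * X + v * Y + (u + v + 1) * (p ^ 2 / (u ^ 2 + u))) else 0) := by
        intro v
        by_cases c1 : v = u
        · subst c1; simp [hne1]
        · simp [c1]
      simp only [this]
      rw [Finset.sum_add_distrib, Finset.sum_ite_eq', Finset.sum_ite_eq']
      simp only [mem_univ, if_true]
      congr 1
      · congr 1
        have : u + u + 1 = 1 := by rw [CharTwo.add_self_eq_zero, zero_add]
        rw [this]; ring
      · rw [← AddChar.map_add_eq_mul]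
        congr 1
        have : u + (u + 1) + 1 = 0 := by
          rw [← add_assoc, CharTwo.add_self_eq_zero, zero_add, h11]
        rw [this]; ring
  rw [Finset.sum_congr rfl fun u _ => hin u, Finset.sum_add_distrib]
  have hT : (∑ u : F, if u = 0 ∨ u = 1 then 0 else e (u * (X + Y) + p ^ 2 / (u ^ 2 + u))) =
      Tgt e a b c d := by
    unfold Tgt
    symm
    refine Fintype.sum_equiv (Equiv.addLeft (1 : F)) _ _ fun η => ?_
    simp only [Equiv.coe_addLeft]
    by_cases c0 : η = 0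
    · simp [c0]
    · by_cases c1 : η = 1
      · simp [c1, h11]
      · have c2 : (1 + η) ≠ 0 := by
          intro h; apply c1; exact (CharTwo.add_eq_zero.1 h).symm
        have c3 : (1 + η) ≠ 1 := by
          intro h; apply c0; simpa using h
        simp only [c0, c1, c2, c3, or_self, if_false]
        congr 1
        have h3 : a * b + c * d = 0 := by rw [hpr, CharTwo.add_self_eq_zero]
        have h4 : (1 + η) ^ 2 + (1 + η) = η * (1 + η) := by grind
        have h5 : a * b * c * d = p ^ 2 := by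
          rw [mul_assoc, ← hpr, hp]; ring
        rw [h3, h4, h5, hX, hY]
        ring
  have hS : (∑ u : F, if u = 0 ∨ u = 1 then 0 else e (u * (X + Y)) * e Y) =
      (if X = Y then (Fintype.card F : ℂ) * e Y else 0) - e X - e Y := by
    have q1 : (∑ u : F, if u = 0 ∨ u = 1 then 0 else e (u * (X + Y)) * e Y) + e Y + e X =
        ∑ u : F, e ((X + Y) * u) * e Y := by
      have r1 : e Y = ∑ u : F, if u = 0 then e Y else 0 := by simp
      have r2 : e X = ∑ u : F, if u = 1 then e X else 0 := by simp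
      conv_lhs => rw [r2]
      conv_lhs =>
        enter [1, 2]
        rw [r1]
      rw [← Finset.sum_add_distrib, ← Finset.sum_add_distrib]
      refine Finset.sum_congr rfl fun u _ => ?_
      by_cases c0 : u = 0
      · simp [c0]
      · by_cases c1 : u = 1
        · simp [c1]
          rw [← AddChar.map_add_eq_mul, add_assoc, CharTwo.add_self_eq_zero, add_zero]
        · simp [c0, c1, mul_comm]
    rw [← Finset.sum_mul, sum_e e hne] at q1
    have r3 : (X + Y = 0) ↔ X = Y := CharTwo.add_eq_zero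
    simp only [r3] at q1
    have r4 : (if X = Y then (Fintype.card F : ℂ) else 0) * e Y =
        if X = Y then (Fintype.card F : ℂ) * e Y else 0 := by split_ifs <;> simp
    rw [r4] at q1
    linear_combination q1
  rw [hT, hS]
  ring

/-- the boundary-corrected product sum. -/
noncomputable def LL (e : AddChar F ℂ) (x z z' t : F) : ℂ :=
  ∑ y : Fˣ, kk e x y z * e (y : F)⁻¹ * kk e y t z'
      + e (x⁻¹ + z⁻¹ + x * z + z' * t) + e (z'⁻¹ + t⁻¹ + x * z + z' * t)
      + if x = z ∧ z' = t then (Fintype.card F : ℂ) * e (x⁻¹ + t⁻¹) else 0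

theorem L3 [CharP F 2] (e : AddChar F ℂ) (hne : e ≠ 1) (x z z' t : F) (hx : x ≠ 0) (hz : z ≠ 0)
    (hz' : z' ≠ 0) (ht : t ≠ 0) : LL e x z z' t = LL e x z' z t := by
  have hsq : ∀ x : F, ∃ a, x = a ^ 2 := by
    intro x
    obtain ⟨a, ha⟩ := (FiniteField.isSquare_of_char_two (ringChar.eq F 2) x)
    exact ⟨a, by rw [ha, sq]⟩
  obtain ⟨a, rfl⟩ := hsq x
  obtain ⟨b, rfl⟩ := hsq z
  obtain ⟨c, rfl⟩ := hsq z'
  obtain ⟨d, rfl⟩ := hsq t
  have ha : a ≠ 0 := by rintro rfl; simp at hx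
  have hb : b ≠ 0 := by rintro rfl; simp at hz
  have hc : c ≠ 0 := by rintro rfl; simp at hz'
  have hd : d ≠ 0 := by rintro rfl; simp at ht
  -- general evaluation
  have hsqinj : ∀ u v : F, u ^ 2 = v ^ 2 ↔ u = v := by
    intro u v
    constructor
    · intro h
      have : (u + v) ^ 2 = 0 := by rw [CharTwo.add_sq, h, CharTwo.add_self_eq_zero]
      exact CharTwo.add_eq_zero.1 (pow_eq_zero_iff (two_ne_zero) |>.1 this)
    · intro h; rw [h]
  have gen : ∀ a b c d : F, a ≠ 0 → b ≠ 0 → c ≠ 0 → d ≠ 0 →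
      LL e (a ^ 2) (b ^ 2) (c ^ 2) (d ^ 2) = Tgt e a b c d +
        ((if (a = c ∧ b = d) ∨ (a = d ∧ b = c) then
          (Fintype.card F : ℂ) * e ((c ^ 2)⁻¹ + (d ^ 2)⁻¹) else 0) +
        if a = b ∧ c = d then (Fintype.card F : ℂ) * e ((a ^ 2)⁻¹ + (d ^ 2)⁻¹) else 0) := by
    intro a b c d ha hb hc hd
    unfold LL
    simp only [hsqinj]
    rw [← add_assoc]
    congr 1
    by_cases hpr : a * b = c * d
    · rw [L3b e hne a b c d ha hb hpr]
      congr 1
      have : ((a ^ 2)⁻¹ + (b ^ 2)⁻¹ = (c ^ 2)⁻¹ + (d ^ 2)⁻¹) ↔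
          ((a = c ∧ b = d) ∨ (a = d ∧ b = c)) := Alg.B1 a b c d ha hb hc hd hpr
      simp only [this]
    · rw [L3a e a b c d ha hb hc hd (fun h => hpr (CharTwo.add_eq_zero.1 h))]
      rw [if_neg, add_zero]
      rintro (⟨rfl, rfl⟩ | ⟨rfl, rfl⟩)
      · exact hpr rfl
      · exact hpr (mul_comm _ _)
  rw [gen a b c d ha hb hc hd, gen a c b d ha hc hb hd, Tgt_swap23]
  congr 1
  by_cases c1 : a = b
  · subst c1
    by_cases c2 : c = d
    · subst c2
      by_cases c3 : a = c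
      · subst c3; simp
      · have c3' : ¬ c = a := fun h => c3 h.symm
        simp [c3, c3']
    · by_cases c3 : a = c
      · subst c3
        simp [c2]
      · have c3' : ¬ c = a := fun h => c3 h.symm
        simp [c2, c3, c3']
  · by_cases c2 : a = c
    · subst c2
      by_cases c3 : b = d
      · subst c3
        simp [c1]
      · simp [c1, c3]
        intro h; subst h
        intro h; exact absurd h (fun h => c1 h.symm)
    · by_cases c3 : a = d
      · subst c3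
        by_cases c4 : b = c
        · subst c4; simp [c1]
        · have c4' : ¬ c = b := fun h => c4 h.symm
          simp [c1, c2, c4, c4']
      · simp [c1, c2, c3]

end Pool.Agent.R478.BES
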