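import Mathlib

/-! Traces of `M * P` for `P` normalising a commuting family with a cyclic vector. -/

namespace Pool.Agent.R478.BES

open Module LinearMap

variable {E : Type*} [NormedAddCommGroup E] [InnerProductSpace ℂ E] [FiniteDimensional ℂ E]
variable {J : Type*}

/-- a commuting family of (multiples of) symmetric operators has a joint eigenbasis. -/
theorem exists_joint_basis (K : J → E →ₗ[ℂ] E) (c : J → ℂ) (hc : ∀ j, c j ≠ 0)
    (hsym : ∀ j, (c j • K j).IsSymmetric) (hcomm : ∀ i j, K i ∘ₗ K j = K j ∘ₗ K i) :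
    ∃ (κ : Type) (_ : Fintype κ) (_ : DecidableEq κ) (b : Basis κ ℂ E) (γ : κ → J → ℂ),
      ∀ i j, K j (b i) = γ i j • b i := by
  classical
  have hI := LinearMap.IsSymmetric.directSum_isInternal_of_pairwise_commute
    (T := fun j => (c j • K j : Module.End ℂ E)) hsym (by
      intro i j _
      show (c i • K i) * (c j • K j) = (c j • K j) * (c i • K i)
      rw [smul_mul_smul_comm, smul_mul_smul_comm, mul_comm (c i)]
      congr 1
      exact hcomm i j)
  set V := fun α : J → ℂ => (⨅ j, Module.End.eigenspace (c j • K j : Module.End ℂ E) (α j) :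
    Submodule ℂ E) with hV
  let B := hI.collectedBasis (fun α => Module.finBasis ℂ (V α))
  haveI : Finite (Σ α : J → ℂ, Fin (Module.finrank ℂ (V α))) := Module.Finite.finite_basis B
  haveI : Fintype (Σ α : J → ℂ, Fin (Module.finrank ℂ (V α))) := Fintype.ofFinite _
  let e := Fintype.equivFin (Σ α : J → ℂ, Fin (Module.finrank ℂ (V α)))
  refine ⟨Fin (Fintype.card (Σ α : J → ℂ, Fin (Module.finrank ℂ (V α)))), inferInstance,
    inferInstance, B.reindex e, fun i j => (c j)⁻¹ * (e.symm i).1 j, ?_⟩
  intro i j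
  have h1 : (B.reindex e) i = B (e.symm i) := by simp
  rw [h1]
  have h2 : B (e.symm i) ∈ V (e.symm i).1 := hI.collectedBasis_mem _ _
  have h3 : B (e.symm i) ∈ Module.End.eigenspace (c j • K j : Module.End ℂ E) ((e.symm i).1 j) :=
    (Submodule.mem_iInf _).1 h2 j
  rw [Module.End.mem_eigenspace_iff] at h3
  have h4 : c j • K j (B (e.symm i)) = (e.symm i).1 j • B (e.symm i) := h3
  calc K j (B (e.symm i)) = (c j)⁻¹ • (c j • K j (B (e.symm i))) := by
        rw [smul_smul, inv_mul_cancel₀ (hc j), one_smul]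
    _ = _ := by rw [h4, smul_smul]

/-- The trace formula. -/
theorem trace_comp_eq (K : J → E →ₗ[ℂ] E) (c : J → ℂ) (hc : ∀ j, c j ≠ 0)
    (hsym : ∀ j, (c j • K j).IsSymmetric) (hcomm : ∀ i j, K i ∘ₗ K j = K j ∘ₗ K i)
    (M : E →ₗ[ℂ] E) (hM : ∀ j, K j ∘ₗ M = M ∘ₗ K j) (v : E)
    (hcyc : ∀ W : Submodule ℂ E, v ∈ W → (∀ j, ∀ w ∈ W, K j w ∈ W) → W = ⊤)
    (P P' : E →ₗ[ℂ] E) (π π' : J → J)
    (hP : ∀ j, P ∘ₗ K j = K (π j) ∘ₗ P) (hP' : ∀ j, P' ∘ₗ K j = K (π' j) ∘ₗ P')
    (hPv : P v = v) (hPv' : P' v = v)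
    (hpi : ∀ f : J → ℂ, f ∘ π = f ↔ f ∘ π' = f) :
    trace ℂ E (M ∘ₗ P) = trace ℂ E (M ∘ₗ P') := by
  classical
  obtain ⟨κ, _, _, b, γ, hb⟩ := exists_joint_basis K c hc hsym hcomm
  -- coordinates
  have hcoord : ∀ (x : E) (i : κ) (j : J), b.repr (K j x) i = γ i j * b.repr x i := by
    intro x i j
    conv_lhs => rw [← b.sum_repr x]
    rw [map_sum, map_sum, Finsupp.finset_sum_apply]
    rw [Finset.sum_eq_single i]
    · rw [map_smul, hb, map_smul, map_smul]
      simp [mul_comm]
    · intro k _ hk
      rw [map_smul, hb, map_smul, map_smul]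
      simp [Finsupp.single_apply, hk]
    · simp
  -- coordinates of `v` are nonzero
  have hv0 : ∀ i, b.repr v i ≠ 0 := by
    intro i hi
    have := hcyc (LinearMap.ker (b.coord i)) (by simpa using hi) (by
      intro j w hw
      simp only [LinearMap.mem_ker, Basis.coord_apply] at hw ⊢
      rw [hcoord, hw, mul_zero])
    have h2 : b i ∈ LinearMap.ker (b.coord i) := by rw [this]; trivial
    simp at h2
  -- `γ` is injective
  have hinj : Function.Injective γ := by
    intro i k hik
    by_contra hne
    have := hcyc (LinearMap.ker (b.repr v k • b.coord i - b.repr v i • b.coord k)) (by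
      simp only [LinearMap.mem_ker, LinearMap.sub_apply, LinearMap.smul_apply, Basis.coord_apply,
        smul_eq_mul]; ring) (by
      intro j w hw
      simp only [LinearMap.mem_ker, LinearMap.sub_apply, LinearMap.smul_apply, Basis.coord_apply,
        smul_eq_mul] at hw ⊢
      rw [hcoord, hcoord, hik]
      linear_combination (γ k j) * hw)
    have h2 : b i ∈ LinearMap.ker (b.repr v k • b.coord i - b.repr v i • b.coord k) := by
      rw [this]; trivial
    simp only [LinearMap.mem_ker, LinearMap.sub_apply, LinearMap.smul_apply, Basis.coord_apply,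
        smul_eq_mul, Basis.repr_self, Finsupp.single_apply, if_neg hne, if_true, mul_one,
        mul_zero, sub_zero] at h2
    exact hv0 k h2
  -- `M` is diagonal
  have hMd : ∀ i k, k ≠ i → b.repr (M (b i)) k = 0 := by
    intro i k hk
    by_contra h0
    apply hk
    apply hinj
    funext j
    have h1 : K j (M (b i)) = γ i j • M (b i) := by
      have := congrArg (fun f => f (b i)) (hM j)
      simp only [LinearMap.comp_apply, hb, map_smul] at this
      exact this
    have h2 := hcoord (M (b i)) k j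
    rw [h1, map_smul, Finsupp.smul_apply, smul_eq_mul] at h2
    exact (mul_right_cancel₀ h0 h2).symm
  -- diagonal coefficients of `P`
  have key : ∀ (Q : E →ₗ[ℂ] E) (ρ : J → J), (∀ j, Q ∘ₗ K j = K (ρ j) ∘ₗ Q) → Q v = v →
      ∀ i, b.repr (Q (b i)) i = if γ i ∘ ρ = γ i then 1 else 0 := by
    intro Q ρ hQ hQv i
    have hnz : ∀ i k, b.repr (Q (b i)) k ≠ 0 → γ k ∘ ρ = γ i := by
      intro i k h0
      funext j
      have h1 : K (ρ j) (Q (b i)) = γ i j • Q (b i) := by
        have := congrArg (fun f => f (b i)) (hQ j)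
        simp only [LinearMap.comp_apply, hb, map_smul] at this
        exact this.symm
      have h2 := hcoord (Q (b i)) k (ρ j)
      rw [h1, map_smul, Finsupp.smul_apply, smul_eq_mul] at h2
      exact (mul_right_cancel₀ h0 h2).symm
    split_ifs with h
    · have h3 : b.repr v i = b.repr v i * b.repr (Q (b i)) i := by
        conv_lhs => rw [← hQv, ← b.sum_repr v]
        rw [map_sum, map_sum, Finsupp.finset_sum_apply]
        rw [Finset.sum_eq_single i]
        · rw [map_smul, map_smul, Finsupp.smul_apply, smul_eq_mul]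
        · intro k _ hk
          rw [map_smul, map_smul, Finsupp.smul_apply, smul_eq_mul]
          by_cases h0 : b.repr (Q (b k)) i = 0
          · rw [h0, mul_zero]
          · exact absurd (hinj ((hnz k i h0).symm.trans h)) hk
        · simp
      have := hv0 i
      field_simp at h3
      exact h3.symm
    · by_contra h0
      exact h (hnz i i h0)
  have htr : ∀ (Q : E →ₗ[ℂ] E), trace ℂ E (M ∘ₗ Q) =
      ∑ i, b.repr (M (b i)) i * b.repr (Q (b i)) i := by
    intro Q
    rw [LinearMap.trace_eq_matrix_trace ℂ b, Matrix.trace]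
    refine Finset.sum_congr rfl fun i _ => ?_
    rw [Matrix.diag_apply, LinearMap.toMatrix_comp b b b, Matrix.mul_apply,
      Finset.sum_eq_single i]
    · simp [LinearMap.toMatrix_apply]
    · intro k _ hk
      rw [LinearMap.toMatrix_apply, hMd k i (Ne.symm hk), zero_mul]
    · simp
  rw [htr, htr]
  refine Finset.sum_congr rfl fun i _ => ?_
  rw [key P π hP hPv i, key P' π' hP' hPv' i]
  congr 1
  by_cases h : γ i ∘ π = γ i
  · rw [if_pos h, if_pos ((hpi _).1 h)]
  · rw [if_neg h, if_neg (fun h' => h ((hpi _).2 h'))]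

end Pool.Agent.R478.BES
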