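import Mathlib
import Pool.Agent.R478.BES.CharSum
import Pool.Agent.R478.BES.Joint

/-! The commuting matrices. -/

namespace Pool.Agent.R478.BES

open Finset Matrix Sum

variable {F : Type*} [Field F] [Fintype F] [DecidableEq F]

/-- the matrix `M`. -/
noncomputable def Mm (e : AddChar F ℂ) (s : ℂ) : Matrix (Fˣ ⊕ Fin 3) (Fˣ ⊕ Fin 3) ℂ :=
  fun i j => match i, j with
  | inl x, inl y => e (x * y + (y : F)⁻¹)
  | inl _, inr 0 => 0
  | inl _, inr 1 => 1
  | inl _, inr 2 => 0
  | inr 0, inl y => e (y : F)⁻¹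
  | inr 0, inr 0 => 0
  | inr 0, inr 1 => 1
  | inr 0, inr 2 => 0
  | inr 1, inl _ => 0
  | inr 1, inr 0 => 0
  | inr 1, inr 1 => 0
  | inr 1, inr 2 => s
  | inr 2, inl _ => 0
  | inr 2, inr 0 => s
  | inr 2, inr 1 => 0
  | inr 2, inr 2 => 0

/-- the matrices `K z`. -/
noncomputable def Km (e : AddChar F ℂ) (s : ℂ) (z : Fˣ) : Matrix (Fˣ ⊕ Fin 3) (Fˣ ⊕ Fin 3) ℂ :=
  fun i j => match i, j with
  | inl x, inl y => kk e x y z * e (y : F)⁻¹
  | inl x, inr 0 => e ((x : F)⁻¹ + (z : F)⁻¹ + x * z)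
  | inl x, inr 1 => e (x * z)
  | inl x, inr 2 => if x = z then s * e (x : F)⁻¹ else 0
  | inr 0, inl y => e (y * z + (y : F)⁻¹)
  | inr 0, inr 0 => 0
  | inr 0, inr 1 => 1
  | inr 0, inr 2 => 0
  | inr 1, inl y => e ((z : F)⁻¹ + y * z)
  | inr 1, inr 0 => e (z : F)⁻¹
  | inr 1, inr 1 => 0
  | inr 1, inr 2 => 0
  | inr 2, inl y => if y = z then s else 0
  | inr 2, inr 0 => 0
  | inr 2, inr 1 => 0
  | inr 2, inr 2 => 0

theorem sum_u3 (f : Fˣ ⊕ Fin 3 → ℂ) :
    ∑ i, f i = ∑ y : Fˣ, f (inl y) + (f (inr 0) + f (inr 1) + f (inr 2)) := by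
  rw [Fintype.sum_sum_type, Fin.sum_univ_three]

variable [CharP F 2]

theorem e_cancel (e : AddChar F ℂ) (a b : F) : e (a + b) * e a = e b := by
  rw [← AddChar.map_add_eq_mul]; congr 1; grind

section KK
variable (e : AddChar F ℂ) (hne : e ≠ 1) (s : ℂ) (hs : s * s = Fintype.card F) (z z' : Fˣ)
include hne hs

theorem KK_xt (x t : Fˣ) : (Km e s z * Km e s z') (inl x) (inl t) = e (t : F)⁻¹ * LL e x z z' t := by
  rw [Matrix.mul_apply, sum_u3]
  simp only [Km]
  unfold LL
  rw [mul_add, mul_add, mul_add, Finset.mul_sum]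
  have h1 : e ((x : F)⁻¹ + (z : F)⁻¹ + x * z) * e (t * z' + (t : F)⁻¹) =
      e (t : F)⁻¹ * e ((x : F)⁻¹ + (z : F)⁻¹ + x * z + z' * t) := by
    rw [← AddChar.map_add_eq_mul, ← AddChar.map_add_eq_mul]; congr 1; ring
  have h2 : e ((x : F) * z) * e ((z' : F)⁻¹ + t * z') =
      e (t : F)⁻¹ * e ((z' : F)⁻¹ + (t : F)⁻¹ + x * z + z' * t) := by
    rw [← AddChar.map_add_eq_mul, ← AddChar.map_add_eq_mul]; congr 1; grind
  have h3 : ((if x = z then s * e (x : F)⁻¹ else 0) * if t = z' then s else 0) =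
      e (t : F)⁻¹ * (if (x : F) = z ∧ (z' : F) = t then
        (Fintype.card F : ℂ) * e ((x : F)⁻¹ + (t : F)⁻¹) else 0) := by
    have c1 : ((x : F) = z ∧ (z' : F) = t) ↔ (x = z ∧ t = z') := by
      rw [Units.val_inj, Units.val_inj, eq_comm (a := z')]
    simp only [c1]
    by_cases h1 : x = z
    · by_cases h2 : t = z'
      · simp only [h1, h2, and_self, if_true]
        rw [AddChar.map_add_eq_mul, ← hs]
        have := e_self e ((z' : F)⁻¹)
        linear_combination (-s * s * e (z : F)⁻¹) * this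
      · simp [h1, h2]
    · simp [h1]
  rw [h1, h2, h3]
  have h4 : (∑ y : Fˣ, kk e x y z * e (y : F)⁻¹ * (kk e y t z' * e (t : F)⁻¹)) =
      ∑ y : Fˣ, e (t : F)⁻¹ * (kk e x y z * e (y : F)⁻¹ * kk e y t z') :=
    Finset.sum_congr rfl fun y _ => by ring
  rw [h4]
  ring

omit hne hs in
theorem KK_xp (x : Fˣ) : (Km e s z * Km e s z') (inl x) (inr 0) =
    e ((x : F)⁻¹ + (z : F)⁻¹ + (z' : F)⁻¹) * BB e x z z' := by
  rw [Matrix.mul_apply, sum_u3]
  simp only [Km, mul_zero, add_zero, zero_add]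
  have h1 : ∀ y : Fˣ, kk e x y z * e (y : F)⁻¹ * e ((y : F)⁻¹ + (z' : F)⁻¹ + y * z') =
      e ((x : F)⁻¹ + (z : F)⁻¹ + (z' : F)⁻¹) * (kk e x y z * e ((y : F)⁻¹ + y * z')) := by
    intro y
    rw [kk_support', mul_assoc, ← AddChar.map_add_eq_mul, mul_left_comm, ← AddChar.map_add_eq_mul]
    congr 2; ring
  rw [Finset.sum_congr rfl fun y _ => h1 y, ← Finset.mul_sum, L2 e _ _ _ x.ne_zero z.ne_zero,
    mul_sub, ← AddChar.map_add_eq_mul, ← AddChar.map_add_eq_mul, BB_swap23]
  have : (x : F)⁻¹ + (z : F)⁻¹ + (z' : F)⁻¹ + ((x : F)⁻¹ + (z : F)⁻¹ + x * z) =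
    x * z + (z' : F)⁻¹ := by grind
  rw [this]; ring

omit hne hs in
theorem KK_xm (x : Fˣ) : (Km e s z * Km e s z') (inl x) (inr 1) = BB e x z z' := by
  rw [Matrix.mul_apply, sum_u3]
  simp only [Km, mul_zero, add_zero, mul_one]
  have h1 : ∀ y : Fˣ, kk e x y z * e (y : F)⁻¹ * e (y * z') =
      kk e x y z * e ((y : F)⁻¹ + y * z') := by
    intro y
    rw [mul_assoc, ← AddChar.map_add_eq_mul]
  rw [Finset.sum_congr rfl fun y _ => h1 y, L2 e _ _ _ x.ne_zero z.ne_zero, BB_swap23]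
  ring

omit hne hs in
theorem KK_xi (x : Fˣ) : (Km e s z * Km e s z') (inl x) (inr 2) = s * kk e x z z' := by
  rw [Matrix.mul_apply, sum_u3]
  simp only [Km, mul_zero, add_zero]
  rw [Finset.sum_eq_single z']
  · rw [if_pos rfl, kk_swap23]
    have := e_self e ((z' : F)⁻¹)
    linear_combination (s * kk e x z z') * this
  · intro y _ hy
    rw [if_neg hy, mul_zero]
  · simp

omit hne hs in
theorem KK_pt (t : Fˣ) : (Km e s z * Km e s z') (inr 0) (inl t) = e (t : F)⁻¹ * BB e t z z' := by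
  rw [Matrix.mul_apply, sum_u3]
  simp only [Km, zero_mul, add_zero, zero_add, one_mul]
  have h1 : ∀ y : Fˣ, e (y * z + (y : F)⁻¹) * (kk e y t z' * e (t : F)⁻¹) =
      e (t : F)⁻¹ * (kk e t y z' * e ((y : F)⁻¹ + y * z)) := by
    intro y
    rw [kk_swap12 e y, add_comm]; ring
  rw [Finset.sum_congr rfl fun y _ => h1 y, ← Finset.mul_sum, L2 e _ _ _ t.ne_zero z'.ne_zero,
    mul_sub, ← AddChar.map_add_eq_mul]
  have : (t : F)⁻¹ + ((t : F)⁻¹ + (z' : F)⁻¹ + t * z') = (z' : F)⁻¹ + t * z' := by grind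
  rw [this]; ring

theorem KK_pp : (Km e s z * Km e s z') (inr 0) (inr 0) =
    if z = z' then (Fintype.card F : ℂ) * e (z : F)⁻¹ else 0 := by
  rw [Matrix.mul_apply, sum_u3]
  simp only [Km, zero_mul, add_zero, zero_add, one_mul, mul_zero]
  have h1 : ∀ y : Fˣ, e (y * z + (y : F)⁻¹) * e ((y : F)⁻¹ + (z' : F)⁻¹ + y * z') =
      e (z' : F)⁻¹ * e ((z + z') * y) := by
    intro y
    rw [← AddChar.map_add_eq_mul, ← AddChar.map_add_eq_mul]
    congr 1; grind
  rw [Finset.sum_congr rfl fun y _ => h1 y, ← Finset.mul_sum, sum_units_e e hne]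
  have h2 : ((z : F) + z' = 0) ↔ z = z' := by
    rw [CharTwo.add_eq_zero, Units.val_inj]
  simp only [h2]
  split_ifs with h
  · rw [h]; ring
  · ring

omit hne hs in
theorem KK_pm : (Km e s z * Km e s z') (inr 0) (inr 1) =
    ∑ y : Fˣ, e (y * z + y * z' + (y : F)⁻¹) := by
  rw [Matrix.mul_apply, sum_u3]
  simp only [Km, zero_mul, add_zero, zero_add, one_mul, mul_zero]
  refine Finset.sum_congr rfl fun y _ => ?_
  rw [← AddChar.map_add_eq_mul]; congr 1; ring

omit hne hs in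
theorem KK_pi : (Km e s z * Km e s z') (inr 0) (inr 2) = s * e (z * z') := by
  rw [Matrix.mul_apply, sum_u3]
  simp only [Km, zero_mul, add_zero, zero_add, one_mul, mul_zero]
  rw [Finset.sum_eq_single z']
  · rw [if_pos rfl, AddChar.map_add_eq_mul, mul_comm (z' : F)]
    have := e_self e ((z' : F)⁻¹)
    linear_combination (s * e (z * z')) * this
  · intro y _ hy
    rw [if_neg hy, mul_zero]
  · simp

omit hne hs in
theorem KK_mt (t : Fˣ) : (Km e s z * Km e s z') (inr 1) (inl t) =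
    e (z : F)⁻¹ * e (z' : F)⁻¹ * BB e t z z' := by
  rw [Matrix.mul_apply, sum_u3]
  simp only [Km, zero_mul, add_zero, zero_add, one_mul]
  have h1 : ∀ y : Fˣ, e ((z : F)⁻¹ + y * z) * (kk e y t z' * e (t : F)⁻¹) =
      e (z : F)⁻¹ * e (z' : F)⁻¹ * (kk e t y z' * e ((y : F)⁻¹ + y * z)) := by
    intro y
    rw [kk_swap12 e y]
    conv_lhs => rw [← kk_support]
    have : e ((z : F)⁻¹ + y * z) * (kk e t y z' * e ((t : F)⁻¹ + (y : F)⁻¹ + (z' : F)⁻¹) *
      e (t : F)⁻¹) = kk e t y z' * (e ((z : F)⁻¹ + y * z) * e ((t : F)⁻¹ + (y : F)⁻¹ + (z' : F)⁻¹) *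
      e (t : F)⁻¹) := by ring
    rw [this]
    have h2 : e (z : F)⁻¹ * e (z' : F)⁻¹ * (kk e t y z' * e ((y : F)⁻¹ + y * z)) =
      kk e t y z' * (e (z : F)⁻¹ * e (z' : F)⁻¹ * e ((y : F)⁻¹ + y * z)) := by ring
    rw [h2, ← AddChar.map_add_eq_mul, ← AddChar.map_add_eq_mul, ← AddChar.map_add_eq_mul,
      ← AddChar.map_add_eq_mul]
    congr 2; grind
  rw [Finset.sum_congr rfl fun y _ => h1 y, ← Finset.mul_sum, L2 e _ _ _ t.ne_zero z'.ne_zero]
  have h3 : e (z : F)⁻¹ * e (z' : F)⁻¹ * e ((t : F)⁻¹ + (z' : F)⁻¹ + t * z') =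
    e (z : F)⁻¹ * e (t * z' + (t : F)⁻¹) := by
    rw [← AddChar.map_add_eq_mul, ← AddChar.map_add_eq_mul, ← AddChar.map_add_eq_mul]
    congr 1; grind
  rw [mul_sub, h3]; ring

omit hne hs in
theorem KK_mp : (Km e s z * Km e s z') (inr 1) (inr 0) =
    ∑ y : Fˣ, e ((z : F)⁻¹ + (z' : F)⁻¹ + y * z + y * z' + (y : F)⁻¹) := by
  rw [Matrix.mul_apply, sum_u3]
  simp only [Km, zero_mul, add_zero, zero_add, one_mul, mul_zero]
  refine Finset.sum_congr rfl fun y _ => ?_
  rw [← AddChar.map_add_eq_mul]; congr 1; ring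

theorem KK_mm : (Km e s z * Km e s z') (inr 1) (inr 1) =
    if z = z' then (Fintype.card F : ℂ) * e (z : F)⁻¹ else 0 := by
  rw [Matrix.mul_apply, sum_u3]
  simp only [Km, zero_mul, add_zero, zero_add, one_mul, mul_zero, mul_one]
  have h1 : ∀ y : Fˣ, e ((z : F)⁻¹ + y * z) * e (y * z') =
      e (z : F)⁻¹ * e ((z + z') * y) := by
    intro y
    rw [← AddChar.map_add_eq_mul, ← AddChar.map_add_eq_mul]
    congr 1; ring
  rw [Finset.sum_congr rfl fun y _ => h1 y, ← Finset.mul_sum, sum_units_e e hne]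
  have h2 : ((z : F) + z' = 0) ↔ z = z' := by
    rw [CharTwo.add_eq_zero, Units.val_inj]
  simp only [h2]
  split_ifs with h
  · ring
  · ring

omit hne hs in
theorem KK_mi : (Km e s z * Km e s z') (inr 1) (inr 2) = s * e ((z : F)⁻¹ + (z' : F)⁻¹ + z * z') := by
  rw [Matrix.mul_apply, sum_u3]
  simp only [Km, zero_mul, add_zero, zero_add, one_mul, mul_zero]
  rw [Finset.sum_eq_single z']
  · rw [if_pos rfl, mul_left_comm, ← AddChar.map_add_eq_mul]
    congr 2; ring
  · intro y _ hy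
    rw [if_neg hy, mul_zero]
  · simp

omit hne hs in
theorem KK_it (t : Fˣ) : (Km e s z * Km e s z') (inr 2) (inl t) =
    s * kk e z t z' * e (t : F)⁻¹ := by
  rw [Matrix.mul_apply, sum_u3]
  simp only [Km, zero_mul, add_zero, zero_add, one_mul, mul_zero]
  rw [Finset.sum_eq_single z]
  · rw [if_pos rfl]; ring
  · intro y _ hy
    rw [if_neg hy, zero_mul]
  · simp

omit hne hs in
theorem KK_ip : (Km e s z * Km e s z') (inr 2) (inr 0) = s * e ((z : F)⁻¹ + (z' : F)⁻¹ + z * z') := by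
  rw [Matrix.mul_apply, sum_u3]
  simp only [Km, zero_mul, add_zero, zero_add, one_mul, mul_zero]
  rw [Finset.sum_eq_single z]
  · rw [if_pos rfl]
  · intro y _ hy
    rw [if_neg hy, zero_mul]
  · simp

omit hne hs in
theorem KK_im : (Km e s z * Km e s z') (inr 2) (inr 1) = s * e (z * z') := by
  rw [Matrix.mul_apply, sum_u3]
  simp only [Km, zero_mul, add_zero, zero_add, one_mul, mul_zero]
  rw [Finset.sum_eq_single z]
  · rw [if_pos rfl]
  · intro y _ hy
    rw [if_neg hy, zero_mul]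
  · simp

omit hne hs in
theorem KK_ii : (Km e s z * Km e s z') (inr 2) (inr 2) =
    if z = z' then s * s * e (z : F)⁻¹ else 0 := by
  rw [Matrix.mul_apply, sum_u3]
  simp only [Km, zero_mul, add_zero, zero_add, one_mul, mul_zero]
  rw [Finset.sum_eq_single z]
  · rw [if_pos rfl]
    split_ifs <;> ring
  · intro y _ hy
    rw [if_neg hy, zero_mul]
  · simp

theorem KK_comm : Km e s z * Km e s z' = Km e s z' * Km e s z := by
  ext i j
  rcases i with x | i
  · rcases j with t | j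
    · rw [KK_xt e hne s hs, KK_xt e hne s hs,
        L3 e hne _ _ _ _ x.ne_zero z.ne_zero z'.ne_zero t.ne_zero]
    · fin_cases j
      · show (Km e s z * Km e s z') (inl x) (inr 0) = (Km e s z' * Km e s z) (inl x) (inr 0)
        rw [KK_xp, KK_xp, BB_swap23]
        congr 2; ring
      · show (Km e s z * Km e s z') (inl x) (inr 1) = (Km e s z' * Km e s z) (inl x) (inr 1)
        rw [KK_xm, KK_xm, BB_swap23]
      · show (Km e s z * Km e s z') (inl x) (inr 2) = (Km e s z' * Km e s z) (inl x) (inr 2)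
        rw [KK_xi, KK_xi, kk_swap23]
  · fin_cases i
    · rcases j with t | j
      · show (Km e s z * Km e s z') (inr 0) (inl t) = (Km e s z' * Km e s z) (inr 0) (inl t)
        rw [KK_pt, KK_pt, BB_swap23]
      · fin_cases j
        · show (Km e s z * Km e s z') (inr 0) (inr 0) = (Km e s z' * Km e s z) (inr 0) (inr 0)
          rw [KK_pp e hne s hs, KK_pp e hne s hs]
          by_cases h : z = z'
          · rw [h]
          · rw [if_neg h, if_neg (Ne.symm h)]
        · show (Km e s z * Km e s z') (inr 0) (inr 1) = (Km e s z' * Km e s z) (inr 0) (inr 1)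
          rw [KK_pm, KK_pm]
          refine Finset.sum_congr rfl fun y _ => ?_
          congr 1; ring
        · show (Km e s z * Km e s z') (inr 0) (inr 2) = (Km e s z' * Km e s z) (inr 0) (inr 2)
          rw [KK_pi, KK_pi, mul_comm (z : F)]
    · rcases j with t | j
      · show (Km e s z * Km e s z') (inr 1) (inl t) = (Km e s z' * Km e s z) (inr 1) (inl t)
        rw [KK_mt, KK_mt, BB_swap23, mul_comm (e _)]
      · fin_cases j
        · show (Km e s z * Km e s z') (inr 1) (inr 0) = (Km e s z' * Km e s z) (inr 1) (inr 0)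
          rw [KK_mp, KK_mp]
          refine Finset.sum_congr rfl fun y _ => ?_
          congr 1; ring
        · show (Km e s z * Km e s z') (inr 1) (inr 1) = (Km e s z' * Km e s z) (inr 1) (inr 1)
          rw [KK_mm e hne s hs, KK_mm e hne s hs]
          by_cases h : z = z'
          · rw [h]
          · rw [if_neg h, if_neg (Ne.symm h)]
        · show (Km e s z * Km e s z') (inr 1) (inr 2) = (Km e s z' * Km e s z) (inr 1) (inr 2)
          rw [KK_mi, KK_mi]
          congr 2; ring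
    · rcases j with t | j
      · show (Km e s z * Km e s z') (inr 2) (inl t) = (Km e s z' * Km e s z) (inr 2) (inl t)
        rw [KK_it, KK_it, kk_swap23, kk_swap12, kk_swap23]
      · fin_cases j
        · show (Km e s z * Km e s z') (inr 2) (inr 0) = (Km e s z' * Km e s z) (inr 2) (inr 0)
          rw [KK_ip, KK_ip]
          congr 2; ring
        · show (Km e s z * Km e s z') (inr 2) (inr 1) = (Km e s z' * Km e s z) (inr 2) (inr 1)
          rw [KK_im, KK_im, mul_comm (z : F)]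
        · show (Km e s z * Km e s z') (inr 2) (inr 2) = (Km e s z' * Km e s z) (inr 2) (inr 2)
          rw [KK_ii, KK_ii]
          by_cases h : z = z'
          · rw [h]
          · rw [if_neg h, if_neg (Ne.symm h)]

end KK

end Pool.Agent.R478.BES
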