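import Mathlib
import Pool.Agent.R478.BES.Mats

/-! `K z` commutes with `M`; Hermitian property. -/

namespace Pool.Agent.R478.BES

open Finset Matrix Sum

variable {F : Type*} [Field F] [Fintype F] [DecidableEq F] [CharP F 2]

theorem KM_comm (e : AddChar F ℂ) (hne : e ≠ 1) (s : ℂ) (hs : s * s = Fintype.card F) (z : Fˣ) :
    Km e s z * Mm e s = Mm e s * Km e s z := by
  have hz0 : (z : F) ≠ 0 := z.ne_zero
  have hzz : ∀ x : Fˣ, ((x : F) + z = 0) ↔ x = z := by
    intro x
    rw [CharTwo.add_eq_zero, Units.val_inj]
  ext i j
  rcases i with x | i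
  · rcases j with t | j
    · rw [Matrix.mul_apply, sum_u3, Matrix.mul_apply, sum_u3]
      simp only [Km, Mm, mul_zero, add_zero, zero_mul, one_mul, zero_add]
      have h1 : ∀ y : Fˣ, kk e x y z * e (y : F)⁻¹ * e (y * t + (t : F)⁻¹) =
          e (t : F)⁻¹ * (kk e x y z * e ((y : F)⁻¹ + y * t)) := by
        intro y
        rw [AddChar.map_add_eq_mul, AddChar.map_add_eq_mul]; ring
      have h2 : ∀ y : Fˣ, e (x * y + (y : F)⁻¹) * (kk e y t z * e (t : F)⁻¹) =
          e (t : F)⁻¹ * (kk e t y z * e ((y : F)⁻¹ + y * x)) := by
        intro y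
        rw [kk_swap12 e y, add_comm, mul_comm (x : F)]; ring
      rw [Finset.sum_congr rfl fun y _ => h1 y, Finset.sum_congr rfl fun y _ => h2 y,
        ← Finset.mul_sum, ← Finset.mul_sum, L2 e _ _ _ x.ne_zero z.ne_zero,
        L2 e _ _ _ t.ne_zero z.ne_zero, BB_swap12 e (t : F)]
      have h3 : e ((x : F)⁻¹ + (z : F)⁻¹ + x * z) * e (t : F)⁻¹ =
        e (t : F)⁻¹ * e ((x : F)⁻¹ + (z : F)⁻¹ + x * z) := mul_comm _ _
      have h4 : e ((z : F)⁻¹ + t * z) = e (t : F)⁻¹ * e ((t : F)⁻¹ + (z : F)⁻¹ + t * z) := by
        rw [← AddChar.map_add_eq_mul]; congr 1; grind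
      rw [h3, h4]; ring
    · fin_cases j
      · show (Km e s z * Mm e s) (inl x) (inr 0) = (Mm e s * Km e s z) (inl x) (inr 0)
        rw [Matrix.mul_apply, sum_u3, Matrix.mul_apply, sum_u3]
        simp only [Km, Mm, mul_zero, add_zero, zero_mul, one_mul, zero_add, Finset.sum_const_zero]
        have h1 : ∀ y : Fˣ, e (x * y + (y : F)⁻¹) * e ((y : F)⁻¹ + (z : F)⁻¹ + y * z) =
            e (z : F)⁻¹ * e ((x + z) * y) := by
          intro y
          rw [← AddChar.map_add_eq_mul, ← AddChar.map_add_eq_mul]
          congr 1; grind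
        rw [Finset.sum_congr rfl fun y _ => h1 y, ← Finset.mul_sum, sum_units_e e hne]
        simp only [hzz]
        by_cases h : x = z
        · simp only [h, if_true]
          linear_combination (e (z : F)⁻¹) * hs
        · simp only [h, if_false]; ring
      · show (Km e s z * Mm e s) (inl x) (inr 1) = (Mm e s * Km e s z) (inl x) (inr 1)
        rw [Matrix.mul_apply, sum_u3, Matrix.mul_apply, sum_u3]
        simp only [Km, Mm, mul_zero, add_zero, zero_mul, one_mul, zero_add, mul_one]
        have h1 : ∀ y : Fˣ, kk e x y z * e (y : F)⁻¹ = (kk e x y z * e ((y : F)⁻¹ + y * 0)) := by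
          intro y
          rw [mul_zero, add_zero]
        rw [Finset.sum_congr rfl fun y _ => h1 y, L2 e _ _ _ x.ne_zero z.ne_zero]
        unfold BB
        rw [sub_add_cancel]
        refine Finset.sum_congr rfl fun y _ => ?_
        rw [← AddChar.map_add_eq_mul]; congr 1; ring
      · show (Km e s z * Mm e s) (inl x) (inr 2) = (Mm e s * Km e s z) (inl x) (inr 2)
        rw [Matrix.mul_apply, sum_u3, Matrix.mul_apply, sum_u3]
        simp only [Km, Mm, mul_zero, add_zero, zero_mul, one_mul, zero_add, Finset.sum_const_zero]
        rw [Finset.sum_eq_single z]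
        · rw [if_pos rfl, AddChar.map_add_eq_mul]
          have := e_self e ((z : F)⁻¹)
          linear_combination (-s * e (x * z)) * this
        · intro y _ hy
          rw [if_neg hy, mul_zero]
        · simp
  · fin_cases i
    · rcases j with t | j
      · show (Km e s z * Mm e s) (inr 0) (inl t) = (Mm e s * Km e s z) (inr 0) (inl t)
        rw [Matrix.mul_apply, sum_u3, Matrix.mul_apply, sum_u3]
        simp only [Km, Mm, mul_zero, add_zero, zero_mul, one_mul, zero_add]
        have h2 : ∀ y : Fˣ, e (y : F)⁻¹ * (kk e y t z * e (t : F)⁻¹) =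
            e (t : F)⁻¹ * (kk e t y z * e ((y : F)⁻¹ + y * 0)) := by
          intro y
          rw [kk_swap12 e y, mul_zero, add_zero]; ring
        rw [Finset.sum_congr rfl fun y _ => h2 y, ← Finset.mul_sum, L2 e _ _ _ t.ne_zero z.ne_zero]
        have h4 : e ((z : F)⁻¹ + t * z) = e (t : F)⁻¹ * e ((t : F)⁻¹ + (z : F)⁻¹ + t * z) := by
          rw [← AddChar.map_add_eq_mul]; congr 1; grind
        rw [h4, mul_sub, sub_add_cancel]
        unfold BB
        rw [Finset.mul_sum]
        refine Finset.sum_congr rfl fun y _ => ?_
        rw [← AddChar.map_add_eq_mul, ← AddChar.map_add_eq_mul]; congr 1; ring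
      · fin_cases j
        · show (Km e s z * Mm e s) (inr 0) (inr 0) = (Mm e s * Km e s z) (inr 0) (inr 0)
          rw [Matrix.mul_apply, sum_u3, Matrix.mul_apply, sum_u3]
          simp only [Km, Mm, mul_zero, add_zero, zero_mul, one_mul, zero_add,
            Finset.sum_const_zero]
          have h1 : ∀ y : Fˣ, e (y : F)⁻¹ * e ((y : F)⁻¹ + (z : F)⁻¹ + y * z) =
              e (z : F)⁻¹ * e (z * y) := by
            intro y
            rw [← AddChar.map_add_eq_mul, ← AddChar.map_add_eq_mul]
            congr 1; grind
          rw [Finset.sum_congr rfl fun y _ => h1 y, ← Finset.mul_sum, sum_units_e e hne,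
            if_neg hz0]
          ring
        · show (Km e s z * Mm e s) (inr 0) (inr 1) = (Mm e s * Km e s z) (inr 0) (inr 1)
          rw [Matrix.mul_apply, sum_u3, Matrix.mul_apply, sum_u3]
          simp only [Km, Mm, mul_zero, add_zero, zero_mul, one_mul, zero_add, mul_one]
          refine Finset.sum_congr rfl fun y _ => ?_
          rw [← AddChar.map_add_eq_mul]; congr 1; ring
        · show (Km e s z * Mm e s) (inr 0) (inr 2) = (Mm e s * Km e s z) (inr 0) (inr 2)
          rw [Matrix.mul_apply, sum_u3, Matrix.mul_apply, sum_u3]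
          simp only [Km, Mm, mul_zero, add_zero, zero_mul, one_mul, zero_add,
            Finset.sum_const_zero]
          rw [Finset.sum_eq_single z]
          · rw [if_pos rfl]
            have := e_self e ((z : F)⁻¹)
            linear_combination (-s) * this
          · intro y _ hy
            rw [if_neg hy, mul_zero]
          · simp
    · rcases j with t | j
      · show (Km e s z * Mm e s) (inr 1) (inl t) = (Mm e s * Km e s z) (inr 1) (inl t)
        rw [Matrix.mul_apply, sum_u3, Matrix.mul_apply, sum_u3]
        simp only [Km, Mm, mul_zero, add_zero, zero_mul, one_mul, zero_add,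
          Finset.sum_const_zero]
        have h1 : ∀ y : Fˣ, e ((z : F)⁻¹ + y * z) * e (y * t + (t : F)⁻¹) =
            e (z : F)⁻¹ * e (t : F)⁻¹ * e ((t + z) * y) := by
          intro y
          rw [← AddChar.map_add_eq_mul, ← AddChar.map_add_eq_mul, ← AddChar.map_add_eq_mul]
          congr 1; ring
        rw [Finset.sum_congr rfl fun y _ => h1 y, ← Finset.mul_sum, sum_units_e e hne]
        simp only [hzz]
        by_cases h : t = z
        · simp only [h, if_true]
          have := e_self e ((z : F)⁻¹)
          linear_combination (Fintype.card F : ℂ) * this - hs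
        · simp only [h, if_false]; ring
      · fin_cases j
        · show (Km e s z * Mm e s) (inr 1) (inr 0) = (Mm e s * Km e s z) (inr 1) (inr 0)
          rw [Matrix.mul_apply, sum_u3, Matrix.mul_apply, sum_u3]
          simp only [Km, Mm, mul_zero, add_zero, zero_mul, one_mul, zero_add,
            Finset.sum_const_zero]
        · show (Km e s z * Mm e s) (inr 1) (inr 1) = (Mm e s * Km e s z) (inr 1) (inr 1)
          rw [Matrix.mul_apply, sum_u3, Matrix.mul_apply, sum_u3]
          simp only [Km, Mm, mul_zero, add_zero, zero_mul, one_mul, zero_add, mul_one,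
            Finset.sum_const_zero]
          have h1 : ∀ y : Fˣ, e ((z : F)⁻¹ + y * z) = e (z : F)⁻¹ * e (z * y) := by
            intro y
            rw [← AddChar.map_add_eq_mul]
            congr 1; ring
          rw [Finset.sum_congr rfl fun y _ => h1 y, ← Finset.mul_sum, sum_units_e e hne,
            if_neg hz0]
          ring
        · show (Km e s z * Mm e s) (inr 1) (inr 2) = (Mm e s * Km e s z) (inr 1) (inr 2)
          rw [Matrix.mul_apply, sum_u3, Matrix.mul_apply, sum_u3]
          simp only [Km, Mm, mul_zero, add_zero, zero_mul, one_mul, zero_add,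
            Finset.sum_const_zero]
    · rcases j with t | j
      · show (Km e s z * Mm e s) (inr 2) (inl t) = (Mm e s * Km e s z) (inr 2) (inl t)
        rw [Matrix.mul_apply, sum_u3, Matrix.mul_apply, sum_u3]
        simp only [Km, Mm, mul_zero, add_zero, zero_mul, one_mul, zero_add,
          Finset.sum_const_zero]
        rw [Finset.sum_eq_single z]
        · rw [if_pos rfl, mul_comm (z : F)]
        · intro y _ hy
          rw [if_neg hy, zero_mul]
        · simp
      · fin_cases j
        · show (Km e s z * Mm e s) (inr 2) (inr 0) = (Mm e s * Km e s z) (inr 2) (inr 0)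
          rw [Matrix.mul_apply, sum_u3, Matrix.mul_apply, sum_u3]
          simp only [Km, Mm, mul_zero, add_zero, zero_mul, one_mul, zero_add,
            Finset.sum_const_zero]
        · show (Km e s z * Mm e s) (inr 2) (inr 1) = (Mm e s * Km e s z) (inr 2) (inr 1)
          rw [Matrix.mul_apply, sum_u3, Matrix.mul_apply, sum_u3]
          simp only [Km, Mm, mul_zero, add_zero, zero_mul, one_mul, zero_add, mul_one,
            Finset.sum_const_zero]
          rw [Finset.sum_eq_single z]
          · rw [if_pos rfl]
          · intro y _ hy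
            rw [if_neg hy]
          · simp
        · show (Km e s z * Mm e s) (inr 2) (inr 2) = (Mm e s * Km e s z) (inr 2) (inr 2)
          rw [Matrix.mul_apply, sum_u3, Matrix.mul_apply, sum_u3]
          simp only [Km, Mm, mul_zero, add_zero, zero_mul, one_mul, zero_add,
            Finset.sum_const_zero]

omit [Fintype F] [DecidableEq F] in
theorem e_pm (e : AddChar F ℂ) (x : F) : e x = 1 ∨ e x = -1 := by
  have := e_self e x
  have h2 : (e x - 1) * (e x + 1) = 0 := by linear_combination this
  rcases mul_eq_zero.1 h2 with h | h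
  · left; linear_combination h
  · right; linear_combination h

omit [Fintype F] [DecidableEq F] in
theorem e_conj (e : AddChar F ℂ) (x : F) : (starRingEnd ℂ) (e x) = e x := by
  rcases e_pm e x with h | h <;> simp [h]

theorem kk_conj (e : AddChar F ℂ) (x y z : F) : (starRingEnd ℂ) (kk e x y z) = kk e x y z := by
  unfold kk
  rw [map_sum]
  refine Finset.sum_congr rfl fun u _ => ?_
  split_ifs
  · exact e_conj e _
  · simp

/-- `(K z)ᴴ = e(1/z) K z`. -/
theorem Km_conjTranspose (e : AddChar F ℂ) (s : ℂ) (hsr : (starRingEnd ℂ) s = s) (z : Fˣ) :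
    (Km e s z)ᴴ = e (z : F)⁻¹ • Km e s z := by
  ext i j
  rw [Matrix.conjTranspose_apply, Matrix.smul_apply, smul_eq_mul]
  show (starRingEnd ℂ) (Km e s z j i) = _
  rcases i with x | i
  · rcases j with t | j
    · simp only [Km]
      rw [map_mul, kk_conj, e_conj, kk_swap12]
      conv_lhs => rw [← kk_support]
      rw [mul_assoc, ← AddChar.map_add_eq_mul]
      have : (x : F)⁻¹ + (t : F)⁻¹ + (z : F)⁻¹ + (x : F)⁻¹ = (z : F)⁻¹ + (t : F)⁻¹ := by grind
      rw [this, AddChar.map_add_eq_mul]; ring
    · fin_cases j
      · simp only [Km, Fin.zero_eta]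
        rw [e_conj, ← AddChar.map_add_eq_mul]; congr 1; grind
      · simp only [Km, Fin.mk_one]
        rw [e_conj, ← AddChar.map_add_eq_mul]
      · simp only [Km, Fin.reduceFinMk]
        by_cases h : x = z
        · simp only [h, if_true, hsr]
          have := e_self e ((z : F)⁻¹)
          linear_combination (-s) * this
        · simp [h]
  · fin_cases i
    · rcases j with t | j
      · simp only [Km, Fin.zero_eta]
        rw [e_conj, ← AddChar.map_add_eq_mul]; congr 1; grind
      · fin_cases j
        · simp [Km]
        · simp only [Km, Fin.zero_eta, Fin.mk_one]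
          rw [e_conj, mul_one]
        · simp [Km]
    · rcases j with t | j
      · simp only [Km, Fin.mk_one]
        rw [e_conj, ← AddChar.map_add_eq_mul]; congr 1; grind
      · fin_cases j
        · simp only [Km, Fin.zero_eta, Fin.mk_one]
          rw [map_one, e_self]
        · simp [Km]
        · simp [Km]
    · rcases j with t | j
      · simp only [Km, Fin.reduceFinMk]
        by_cases h : t = z
        · simp only [h, if_true, map_mul, hsr, e_conj]; ring
        · simp [h]
      · fin_cases j
        · simp [Km]
        · simp [Km]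
        · simp [Km]

end Pool.Agent.R478.BES
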