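import Mathlib
import Pool.Agent.R478.BES.Mats2

/-! Main theorem: independence of the automorphism. -/

namespace Pool.Agent.R478.BES

open Finset Matrix Sum

theorem trace_mul_eq {ι J : Type*} [Fintype ι] [DecidableEq ι] (K : J → Matrix ι ι ℂ)
    (c : J → ℂ) (hc : ∀ j, c j ≠ 0) (hH : ∀ j, (c j • K j).IsHermitian)
    (hK : ∀ i j, K i * K j = K j * K i) (M : Matrix ι ι ℂ) (hM : ∀ j, K j * M = M * K j)
    (v : ι → ℂ)
    (hcyc : ∀ W : Submodule ℂ (ι → ℂ), v ∈ W → (∀ j, ∀ w ∈ W, K j *ᵥ w ∈ W) → W = ⊤)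
    (P P' : Matrix ι ι ℂ) (π π' : J → J)
    (hP : ∀ j, P * K j = K (π j) * P) (hP' : ∀ j, P' * K j = K (π' j) * P')
    (hPv : P *ᵥ v = v) (hPv' : P' *ᵥ v = v)
    (hpi : ∀ f : J → ℂ, f ∘ π = f ↔ f ∘ π' = f) :
    (M * P).trace = (M * P').trace := by
  have htr : ∀ A : Matrix ι ι ℂ, LinearMap.trace ℂ _ (toEuclideanLin A) = A.trace := by
    intro A
    rw [toEuclideanLin_eq_toLin_orthonormal, Matrix.trace_toLin_eq]
  have hmul : ∀ A B : Matrix ι ι ℂ, toEuclideanLin (A * B) =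
      toEuclideanLin A ∘ₗ toEuclideanLin B := fun A B => toLpLin_mul 2 2 2 A B
  rw [← htr, ← htr, hmul, hmul]
  refine trace_comp_eq (fun j => toEuclideanLin (K j)) c hc ?_ ?_ _ ?_ (WithLp.toLp 2 v) ?_ _ _
    π π' ?_ ?_ ?_ ?_ hpi
  · intro j
    show (c j • toEuclideanLin (K j)).IsSymmetric
    rw [← map_smul]
    exact isSymmetric_toEuclideanLin_iff.2 (hH j)
  · intro i j
    show toEuclideanLin (K i) ∘ₗ toEuclideanLin (K j) = toEuclideanLin (K j) ∘ₗ toEuclideanLin (K i)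
    rw [← hmul, ← hmul, hK]
  · intro j
    show toEuclideanLin (K j) ∘ₗ toEuclideanLin M = toEuclideanLin M ∘ₗ toEuclideanLin (K j)
    rw [← hmul, ← hmul, hM]
  · intro W hv hW
    have h := hcyc (W.comap (WithLp.linearEquiv 2 ℂ (ι → ℂ)).symm.toLinearMap) hv (by
      intro j w hw
      exact hW j _ hw)
    rw [eq_top_iff]
    intro x _
    have hx : WithLp.ofLp x ∈ (W.comap (WithLp.linearEquiv 2 ℂ (ι → ℂ)).symm.toLinearMap) := by
      rw [h]; trivial
    exact hx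
  · intro j
    show toEuclideanLin P ∘ₗ toEuclideanLin (K j) = toEuclideanLin (K (π j)) ∘ₗ toEuclideanLin P
    rw [← hmul, ← hmul, hP]
  · intro j
    show toEuclideanLin P' ∘ₗ toEuclideanLin (K j) = toEuclideanLin (K (π' j)) ∘ₗ toEuclideanLin P'
    rw [← hmul, ← hmul, hP']
  · show WithLp.toLp 2 (P *ᵥ v) = _
    rw [hPv]
  · show WithLp.toLp 2 (P' *ᵥ v) = _
    rw [hPv']

/-- matrix of a permutation. -/
def Pm {ι : Type*} [DecidableEq ι] (τ : Equiv.Perm ι) : Matrix ι ι ℂ :=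
  fun i j => if i = τ j then 1 else 0

theorem mul_Pm {ι : Type*} [Fintype ι] [DecidableEq ι] (τ : Equiv.Perm ι) (A : Matrix ι ι ℂ)
    (i j : ι) : (A * Pm τ) i j = A i (τ j) := by
  rw [Matrix.mul_apply]
  simp [Pm]

theorem Pm_mul {ι : Type*} [Fintype ι] [DecidableEq ι] (τ : Equiv.Perm ι) (A : Matrix ι ι ℂ)
    (i j : ι) : (Pm τ * A) (τ i) j = A i j := by
  rw [Matrix.mul_apply]
  simp [Pm]

variable {F : Type*} [Field F] [Fintype F] [DecidableEq F] [CharP F 2]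

/-- the permutation of the index set. -/
def tau (φ : F ≃+* F) : Equiv.Perm (Fˣ ⊕ Fin 3) :=
  Equiv.sumCongr (Units.mapEquiv (φ : F ≃* F)).toEquiv (Equiv.refl _)

/-- action on units. -/
def uu (φ : F ≃+* F) (x : Fˣ) : Fˣ := Units.mapEquiv (φ : F ≃* F) x

omit [Fintype F] [DecidableEq F] [CharP F 2] in
theorem coe_uu (φ : F ≃+* F) (x : Fˣ) : ((uu φ x : Fˣ) : F) = φ x := rfl

omit [CharP F 2] in
theorem kk_equiv (e : AddChar F ℂ) (φ : F ≃+* F) (hφ : ∀ x, e (φ x) = e x) (x y z : F) :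
    kk e (φ x) (φ y) (φ z) = kk e x y z := by
  unfold kk
  symm
  refine Fintype.sum_equiv φ.toEquiv _ _ fun u => ?_
  have h1 : (φ u ^ 2 + φ u = φ x * φ y * φ z) ↔ (u ^ 2 + u = x * y * z) := by
    rw [← map_pow, ← map_add, ← map_mul, ← map_mul, φ.injective.eq_iff]
  have h2 : φ u * ((φ x)⁻¹ + (φ y)⁻¹ + (φ z)⁻¹) = φ (u * (x⁻¹ + y⁻¹ + z⁻¹)) := by
    simp only [map_mul, map_add, map_inv₀]
  show _ = if φ u ^ 2 + φ u = φ x * φ y * φ z then
    e (φ u * ((φ x)⁻¹ + (φ y)⁻¹ + (φ z)⁻¹)) else 0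
  simp only [h1, h2, hφ]

omit [CharP F 2] in
theorem Km_equiv (e : AddChar F ℂ) (s : ℂ) (φ : F ≃+* F) (hφ : ∀ x, e (φ x) = e x) (z : Fˣ)
    (i j : Fˣ ⊕ Fin 3) : Km e s (uu φ z) (tau φ i) (tau φ j) = Km e s z i j := by
  have hinj : ∀ x y : Fˣ, uu φ x = uu φ y ↔ x = y := fun x y =>
    (Units.mapEquiv (φ : F ≃* F)).injective.eq_iff
  rcases i with x | i
  · rcases j with t | j
    · show kk e (φ x) (φ t) (φ z) * e (φ t)⁻¹ = _
      rw [kk_equiv e φ hφ, ← map_inv₀, hφ]; rfl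
    · fin_cases j
      · show e ((φ x)⁻¹ + (φ z)⁻¹ + φ x * φ z) = e ((x : F)⁻¹ + (z : F)⁻¹ + x * z)
        rw [← hφ ((x : F)⁻¹ + (z : F)⁻¹ + x * z)]
        simp only [map_mul, map_add, map_inv₀]
      · show e (φ x * φ z) = e (x * z)
        rw [← map_mul, hφ]
      · show (if uu φ x = uu φ z then s * e (φ x)⁻¹ else 0) = if x = z then s * e (x : F)⁻¹ else 0
        simp only [hinj]
        rw [← map_inv₀, hφ]
  · fin_cases i
    · rcases j with t | j
      · show e (φ t * φ z + (φ t)⁻¹) = e (t * z + (t : F)⁻¹)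
        rw [← hφ (t * z + (t : F)⁻¹)]
        simp only [map_mul, map_add, map_inv₀]
      · fin_cases j <;> rfl
    · rcases j with t | j
      · show e ((φ z)⁻¹ + φ t * φ z) = e ((z : F)⁻¹ + t * z)
        rw [← hφ ((z : F)⁻¹ + t * z)]
        simp only [map_mul, map_add, map_inv₀]
      · fin_cases j
        · show e (φ z)⁻¹ = e (z : F)⁻¹
          rw [← map_inv₀, hφ]
        · rfl
        · rfl
    · rcases j with t | j
      · show (if uu φ t = uu φ z then s else 0) = if t = z then s else 0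
        simp only [hinj]
      · fin_cases j <;> rfl

omit [CharP F 2] in
theorem Pm_Km (e : AddChar F ℂ) (s : ℂ) (φ : F ≃+* F) (hφ : ∀ x, e (φ x) = e x) (z : Fˣ) :
    Pm (tau φ) * Km e s z = Km e s (uu φ z) * Pm (tau φ) := by
  ext i j
  obtain ⟨i', rfl⟩ := (tau φ).surjective i
  rw [Pm_mul, mul_Pm, Km_equiv e s φ hφ]

omit [CharP F 2] in
theorem trace_M (e : AddChar F ℂ) (s : ℂ) (φ : F ≃+* F) (hφ : ∀ x, e (φ x) = e x) :
    (Mm e s * Pm (tau φ)).trace = ∑ x : Fˣ, e (x * φ x + (x : F)⁻¹) := by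
  rw [Matrix.trace, sum_u3]
  simp only [Matrix.diag_apply, mul_Pm]
  have h : Mm e s (inr 0) (tau φ (inr 0)) + Mm e s (inr 1) (tau φ (inr 1)) +
    Mm e s (inr 2) (tau φ (inr 2)) = 0 := by
    show (0 : ℂ) + 0 + 0 = 0
    ring
  rw [h, add_zero]
  refine Finset.sum_congr rfl fun x _ => ?_
  show e (x * φ x + (φ x)⁻¹) = _
  rw [AddChar.map_add_eq_mul, AddChar.map_add_eq_mul, ← map_inv₀, hφ]

/-- cyclicity of the vector at infinity. -/
theorem cyclic (e : AddChar F ℂ) (hne : e ≠ 1) (s : ℂ) (hs : s * s = Fintype.card F)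
    (hcard : 2 < Fintype.card F) (W : Submodule ℂ (Fˣ ⊕ Fin 3 → ℂ))
    (hv : Pi.single (inr 2) 1 ∈ W) (hW : ∀ j, ∀ w ∈ W, Km e s j *ᵥ w ∈ W) : W = ⊤ := by
  have hs0 : s ≠ 0 := by
    rintro rfl
    have : (Fintype.card F : ℂ) ≠ 0 := by
      exact_mod_cast Fintype.card_ne_zero
    exact this (by rw [← hs, mul_zero])
  have he0 : ∀ x : F, e x ≠ 0 := by
    intro x hx
    have := e_self e x
    rw [hx] at this; simp at this
  -- the vectors at points
  have hpt : ∀ z : Fˣ, (Pi.single (inl z) (1 : ℂ) : Fˣ ⊕ Fin 3 → ℂ) ∈ W := by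
    intro z
    have h1 := hW z _ hv
    rw [Matrix.mulVec_single_one] at h1
    have h2 : (Km e s z).col (inr 2) = (s * e (z : F)⁻¹) • (Pi.single (inl z) (1 : ℂ) :
        Fˣ ⊕ Fin 3 → ℂ) := by
      funext i
      rcases i with x | i
      · show (if x = z then s * e (x : F)⁻¹ else 0) = _
        by_cases h : x = z
        · subst h; simp
        · simp [h]
      · fin_cases i
        · show (0 : ℂ) = _
          simp
        · show (0 : ℂ) = _
          simp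
        · show (0 : ℂ) = _
          simp
    rw [h2] at h1
    exact (Submodule.smul_mem_iff _ (mul_ne_zero hs0 (he0 _))).1 h1
  -- combinations at `0±`
  have hpm : ∀ y z : Fˣ, (e (y : F)⁻¹ • (Pi.single (inr 0) (1 : ℂ) : Fˣ ⊕ Fin 3 → ℂ) +
      e (z : F)⁻¹ • (Pi.single (inr 1) (1 : ℂ) : Fˣ ⊕ Fin 3 → ℂ)) ∈ W := by
    intro y z
    have h1 := hW z _ (hpt y)
    rw [Matrix.mulVec_single_one] at h1
    have h2 : (Km e s z).col (inl y) = (∑ x : Fˣ, Km e s z (inl x) (inl y) •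
        (Pi.single (inl x) (1 : ℂ) : Fˣ ⊕ Fin 3 → ℂ)) +
        (e (y * z) • (e (y : F)⁻¹ • (Pi.single (inr 0) (1 : ℂ) : Fˣ ⊕ Fin 3 → ℂ) +
      e (z : F)⁻¹ • (Pi.single (inr 1) (1 : ℂ) : Fˣ ⊕ Fin 3 → ℂ))) +
        (if y = z then s else 0) • (Pi.single (inr 2) (1 : ℂ) : Fˣ ⊕ Fin 3 → ℂ) := by
      funext i
      rw [Pi.add_apply, Pi.add_apply, Finset.sum_apply]
      simp only [Pi.smul_apply, Pi.add_apply, smul_eq_mul, Matrix.col_apply]
      rcases i with x | i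
      · rw [Finset.sum_eq_single x]
        · simp
        · intro x' _ hx'
          simp [hx'.symm]
        · simp
      · have h0 : ∑ x : Fˣ, Km e s z (inl x) (inl y) *
            (Pi.single (inl x) (1 : ℂ) : Fˣ ⊕ Fin 3 → ℂ) (inr i) = 0 := by
          apply Finset.sum_eq_zero
          intro x _
          simp
        rw [h0]
        fin_cases i
        · show e (y * z + (y : F)⁻¹) = _
          rw [AddChar.map_add_eq_mul]
          simp
        · show e ((z : F)⁻¹ + y * z) = _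
          rw [AddChar.map_add_eq_mul]
          simp [mul_comm]
        · show (if y = z then s else 0) = _
          simp
    rw [h2] at h1
    have h3 : (∑ x : Fˣ, Km e s z (inl x) (inl y) •
        (Pi.single (inl x) (1 : ℂ) : Fˣ ⊕ Fin 3 → ℂ)) ∈ W :=
      Submodule.sum_mem _ fun x _ => Submodule.smul_mem _ _ (hpt x)
    have h4 : (if y = z then s else 0) • (Pi.single (inr 2) (1 : ℂ) : Fˣ ⊕ Fin 3 → ℂ) ∈ W :=
      Submodule.smul_mem _ _ hv
    have h5 := (Submodule.add_mem_iff_left _ h4).1 h1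
    have h6 := (Submodule.add_mem_iff_right _ h3).1 h5
    exact (Submodule.smul_mem_iff _ (he0 _)).1 h6
  -- two units with different signs
  obtain ⟨z, hz⟩ : ∃ z : F, e z = -1 := by
    by_contra h
    push_neg at h
    apply hne
    ext x
    rcases e_pm e x with h1 | h1
    · simp [h1]
    · exact absurd h1 (h x)
  have hz0 : z ≠ 0 := by
    rintro rfl
    rw [AddChar.map_zero_eq_one] at hz
    norm_num at hz
  obtain ⟨y, hy0, hy⟩ : ∃ y : F, y ≠ 0 ∧ e y = 1 := by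
    obtain ⟨w, hw⟩ : ∃ w : F, w ∉ ({0, z} : Finset F) := by
      by_contra h
      push_neg at h
      have h1 : (Finset.univ : Finset F) ⊆ {0, z} := fun x _ => h x
      have h2 := Finset.card_le_card h1
      rw [Finset.card_univ] at h2
      have h3 : ({0, z} : Finset F).card ≤ 2 := Finset.card_le_two
      omega
    simp only [Finset.mem_insert, Finset.mem_singleton, not_or] at hw
    rcases e_pm e w with h1 | h1
    · exact ⟨w, hw.1, h1⟩
    · refine ⟨w + z, ?_, ?_⟩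
      · intro h; exact hw.2 (CharTwo.add_eq_zero.1 h)
      · rw [AddChar.map_add_eq_mul, h1, hz]; norm_num
  have hyi : e (y⁻¹)⁻¹ = 1 := by rw [inv_inv, hy]
  have hzi : e (z⁻¹)⁻¹ = -1 := by rw [inv_inv, hz]
  have k1 := hpm (Units.mk0 y⁻¹ (inv_ne_zero hy0)) (Units.mk0 y⁻¹ (inv_ne_zero hy0))
  have k2 := hpm (Units.mk0 y⁻¹ (inv_ne_zero hy0)) (Units.mk0 z⁻¹ (inv_ne_zero hz0))
  simp only [Units.val_mk0, hyi, hzi, one_smul] at k1 k2
  have hp : (Pi.single (inr 0) (1 : ℂ) : Fˣ ⊕ Fin 3 → ℂ) ∈ W := by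
    have := Submodule.smul_mem W (1 / 2 : ℂ) (Submodule.add_mem _ k1 k2)
    have h2 : (1 / 2 : ℂ) • ((Pi.single (inr 0) (1 : ℂ) : Fˣ ⊕ Fin 3 → ℂ) +
        (Pi.single (inr 1) (1 : ℂ) : Fˣ ⊕ Fin 3 → ℂ) +
        ((Pi.single (inr 0) (1 : ℂ) : Fˣ ⊕ Fin 3 → ℂ) +
        (-1 : ℂ) • (Pi.single (inr 1) (1 : ℂ) : Fˣ ⊕ Fin 3 → ℂ))) = Pi.single (inr 0) (1 : ℂ) := by
      module
    rwa [h2] at this
  have hm : (Pi.single (inr 1) (1 : ℂ) : Fˣ ⊕ Fin 3 → ℂ) ∈ W :=
    (Submodule.add_mem_iff_right _ hp).1 k1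
  rw [eq_top_iff]
  intro x _
  have hx : x = ∑ i, x i • (Pi.single i (1 : ℂ) : Fˣ ⊕ Fin 3 → ℂ) := by
    funext j
    rw [Finset.sum_apply, Finset.sum_eq_single j]
    · simp
    · intro i _ hi
      simp [hi.symm]
    · simp
  rw [hx]
  refine Submodule.sum_mem _ fun i _ => Submodule.smul_mem _ _ ?_
  rcases i with z | i
  · exact hpt z
  · fin_cases i
    · exact hp
    · exact hm
    · exact hv

/-- **Main theorem**: independence of the automorphism. -/
theorem main (e : AddChar F ℂ) (hne : e ≠ 1) (hcard : 2 < Fintype.card F) (φ φ' : F ≃+* F)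
    (hφ : ∀ x, e (φ x) = e x) (hφ' : ∀ x, e (φ' x) = e x)
    (hpi : ∀ f : Fˣ → ℂ, f ∘ uu φ = f ↔ f ∘ uu φ' = f) :
    ∑ x : Fˣ, e (x * φ x + (x : F)⁻¹) = ∑ x : Fˣ, e (x * φ' x + (x : F)⁻¹) := by
  obtain ⟨s, hs⟩ : ∃ s : ℂ, s = ((Real.sqrt (Fintype.card F) : ℝ) : ℂ) := ⟨_, rfl⟩
  have hss : s * s = Fintype.card F := by
    rw [hs, ← Complex.ofReal_mul, Real.mul_self_sqrt (Nat.cast_nonneg _)]
    simp
  have hsr : (starRingEnd ℂ) s = s := by rw [hs, Complex.conj_ofReal]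
  rw [← trace_M e s φ hφ, ← trace_M e s φ' hφ']
  have hPv : ∀ ψ : F ≃+* F, Pm (tau ψ) *ᵥ (Pi.single (inr 2) (1 : ℂ) : Fˣ ⊕ Fin 3 → ℂ) =
      Pi.single (inr 2) 1 := by
    intro ψ
    rw [Matrix.mulVec_single_one]
    funext i
    show (if i = tau ψ (inr 2) then (1 : ℂ) else 0) = _
    have : tau ψ (inr 2) = inr 2 := rfl
    rw [this, Pi.single_apply]
  refine trace_mul_eq (Km e s) (fun z => if e (z : F)⁻¹ = 1 then 1 else Complex.I) ?_ ?_
    (fun i j => KK_comm e hne s hss i j) (Mm e s) (fun j => KM_comm e hne s hss j)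
    (Pi.single (inr 2) 1) (cyclic e hne s hss hcard) _ _ (uu φ) (uu φ')
    (Pm_Km e s φ hφ) (Pm_Km e s φ' hφ') (hPv φ) (hPv φ') hpi
  · intro z
    split_ifs
    · exact one_ne_zero
    · exact Complex.I_ne_zero
  · intro z
    rw [Matrix.IsHermitian, Matrix.conjTranspose_smul, Km_conjTranspose e s hsr z, smul_smul]
    congr 1
    rcases e_pm e (z : F)⁻¹ with h | h
    · simp [h]
    · have h1 : ¬ ((-1 : ℂ) = 1) := by norm_num
      rw [h]
      simp only [h1, if_false]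
      show (starRingEnd ℂ) Complex.I * -1 = _
      rw [Complex.conj_I]; ring

end Pool.Agent.R478.BES
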